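import Pool.Agent.Helper781.Fusion.PFEig

set_option autoImplicit false
set_option linter.unusedSectionVars false

open CategoryTheory CategoryTheory.Limits MonoidalCategory

namespace Pool.Agent.Helper781.Fusion

universe v u

section main

variable {C : Type u} [Category.{v} C] [Abelian C] [Linear ℂ C] [MonoidalCategory C]
  [MonoidalPreadditive C] [MonoidalLinear ℂ C] [RigidCategory C]

/-- The field generated by the roots of unity. -/
noncomputable def Kcyc : Subfield ℂ := Subfield.closure {z : ℂ | ∃ n : ℕ, 0 < n ∧ z ^ n = 1}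

lemma sum_count {r : ℕ} {S : Fin r → C} [∀ X Y : C, FiniteDimensional ℂ (X ⟶ Y)]
    (dec : ∀ Z, Dec S Z) (hS : IsSimpleList S) (w : Fin r → ℝ) (d : C → ℝ)
    (hd : ∀ X, (NM S X).mulVec w = d X • w) (V : C) :
    ∑ i, w i * (∑ j, (Module.finrank ℂ (S j ⟶ V ⊗ (S j ⊗ S i)) : ℝ)) =
      d V * ∑ i, w i * d (S i) := by
  have hd' : ∀ X k, ∑ l, (Module.finrank ℂ (S k ⟶ X ⊗ S l) : ℝ) * w l = d X * w k := by
    intro X k
    exact congrFun (hd X) k
  have h1 : ∀ i j, (Module.finrank ℂ (S j ⟶ V ⊗ (S j ⊗ S i)) : ℝ) =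
      ∑ l, (Module.finrank ℂ (S l ⟶ S j ⊗ S i) : ℝ) * (Module.finrank ℂ (S j ⟶ V ⊗ S l) : ℝ) := by
    intro i j
    exact_mod_cast finrank_expand hS (dec (S j ⊗ S i)) (tensorLeft V) (S j)
  simp_rw [h1, Finset.mul_sum]
  rw [Finset.sum_comm]
  refine Finset.sum_congr rfl fun j _ => ?_
  rw [Finset.sum_comm]
  have h2 : ∀ l, ∑ i, w i * ((Module.finrank ℂ (S l ⟶ S j ⊗ S i) : ℝ) *
      (Module.finrank ℂ (S j ⟶ V ⊗ S l) : ℝ)) =
      d (S j) * ((Module.finrank ℂ (S j ⟶ V ⊗ S l) : ℝ) * w l) := by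
    intro l
    have : ∀ i, w i * ((Module.finrank ℂ (S l ⟶ S j ⊗ S i) : ℝ) *
      (Module.finrank ℂ (S j ⟶ V ⊗ S l) : ℝ)) =
      ((Module.finrank ℂ (S l ⟶ S j ⊗ S i) : ℝ) * w i) *
      (Module.finrank ℂ (S j ⟶ V ⊗ S l) : ℝ) := fun i => by ring
    simp_rw [this]
    rw [← Finset.sum_mul, hd']
    ring
  simp_rw [h2]
  rw [← Finset.mul_sum, hd']
  ring

theorem main (hC : IsFusionCategory C) {r : ℕ} {S : Fin r → C} (hS : IsSimpleList S) (V : C)
    (d0 : ℝ) (h0 : IsPFEigenvalue (fusionMatrix S V) d0) : (d0 : ℂ) ∈ Kcyc := by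
  have hfd : ∀ X Y : C, FiniteDimensional ℂ (X ⟶ Y) := hC.finiteDimensional_hom
  have hu : Simple (𝟙_ C) := hC.simple_unit
  have dec : ∀ Z, Dec S Z := fun Z => (exists_dec hS hC.semisimple Z).some
  have hne : Nonempty (Fin r) := ⟨(hS.complete _ hu).choose⟩
  obtain ⟨w, d, hw, hd, hdpos⟩ := exists_pf dec hS
  have hd0 : d0 = d V := pf_unique V w hw (d V) d0 (hd V) h0
  obtain ⟨P, B, π, ι, hq, h1, h2, h3⟩ := exists_base hS dec
  set p := pathData B π ι hq h1 h2 h3 (tensorLeft V) (fun j => dec _) with hp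
  set f : ℝ := ∑ i, w i * d (S i) with hf
  have hfpos : 0 < f := Finset.sum_pos (fun i _ => mul_pos (hw i) (hdpos i)) Finset.univ_nonempty
  have hroot : ∀ (z : ℂ) (n : ℕ), 0 < n → z ^ n = 1 → z ∈ Kcyc := fun z n hn hz =>
    Subfield.subset_closure ⟨n, hn, hz⟩
  have htr : ∀ n, 1 ≤ n → ∑ i, ((w i / f : ℝ) : ℂ) *
      LinearMap.trace ℂ (PathData.Qs (F := tensorLeft V) (tensorRight (S i)) B)
        ((p.WQ (tensorRight (S i)) (cU V (S i))) ^ n) ∈ Kcyc := by
    intro n hn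
    obtain ⟨m, rfl⟩ : ∃ m, n = m + 1 := ⟨n - 1, by omega⟩
    set e := ∑ i, ((w i / f : ℝ) : ℂ) • TU p (S i) m with he
    have hidem : e * e = e := by
      refine idem_of_mul (fun i => TU p (S i) m)
        (fun k i j => Module.finrank ℂ (S k ⟶ S i ⊗ S j)) (fun i j => TU_fusion p hS dec m i j)
        w (fun i => d (S i)) f (fun i k => congrFun (hd (S i)) k) hf hfpos.ne'
    have hrot : ∀ y x, e (rot y) (rot x) = e y x := by
      intro y x
      simp only [he, Matrix.sum_apply, Matrix.smul_apply]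
      refine Finset.sum_congr rfl fun i _ => ?_
      congr 1
      exact p.T_rot (tensorRight (S i)) (cU V (S i)) m y x
    have hpow := rot_pow e hrot hidem
    have hmem := trace_mem Kcyc hroot (e.submatrix rot id) (m + 1) (Nat.succ_pos _) hpow
    have htrace : (e.submatrix rot id).trace = ∑ i, ((w i / f : ℝ) : ℂ) *
        LinearMap.trace ℂ (PathData.Qs (F := tensorLeft V) (tensorRight (S i)) B)
        ((p.WQ (tensorRight (S i)) (cU V (S i))) ^ (m + 1)) := by
      simp_rw [PathData.trace_WQ]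
      unfold Matrix.trace
      simp only [Matrix.diag_apply, Matrix.submatrix_apply, id_eq, he, Matrix.sum_apply,
        Matrix.smul_apply, smul_eq_mul]
      rw [Finset.sum_comm]
      refine Finset.sum_congr rfl fun i _ => ?_
      rw [Finset.mul_sum]
      rfl
    rwa [htrace] at hmem
  have hrec := recur_mem Kcyc (fun i : Fin r => ((w i / f : ℝ) : ℂ))
    (fun i => PathData.Qs (F := tensorLeft V) (tensorRight (S i)) B)
    (fun i => p.WQ (tensorRight (S i)) (cU V (S i)))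
    (fun i => p.WQ_injective (tensorRight (S i)) (cU V (S i))) htr
  have hfr : ∀ i, (Module.finrank ℂ (PathData.Qs (F := tensorLeft V) (tensorRight (S i)) B)) =
      ∑ j, Module.finrank ℂ (S j ⟶ V ⊗ (S j ⊗ S i)) := fun i =>
    PathData.finrank_Qs (F := tensorLeft V) (B := B) (tensorRight (S i)) S π ι hq h1
  have hsum : ∑ i, ((w i / f : ℝ) : ℂ) *
      (Module.finrank ℂ (PathData.Qs (F := tensorLeft V) (tensorRight (S i)) B) : ℂ) = (d V : ℂ) := by
    have h5 := sum_count dec hS w d hd V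
    have h6 : ∑ i, (w i / f) * (∑ j, (Module.finrank ℂ (S j ⟶ V ⊗ (S j ⊗ S i)) : ℝ)) = d V := by
      have : ∀ i, (w i / f) * (∑ j, (Module.finrank ℂ (S j ⟶ V ⊗ (S j ⊗ S i)) : ℝ)) =
          (w i * (∑ j, (Module.finrank ℂ (S j ⟶ V ⊗ (S j ⊗ S i)) : ℝ))) / f := fun i => by ring
      simp_rw [this]
      rw [← Finset.sum_div, h5, ← hf]
      field_simp
    rw [← h6]
    simp_rw [hfr]
    push_cast
    rfl
  rw [hd0, ← hsum]
  exact hrec

/-- **Frobenius-Perron dimensions in a fusion category are cyclotomic.** -/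
theorem fpdim_cyclotomic (hC : IsFusionCategory C) (V : C) (d : ℝ) (h : IsFPdim V d) :
    ∃ (N : ℕ) (ζ : ℂ), 0 < N ∧ IsPrimitiveRoot ζ N ∧
      (d : ℂ) ∈ IntermediateField.adjoin ℚ {ζ} := by
  obtain ⟨r, S, hS, h0⟩ := h
  exact in_cyc (main hC hS V d h0)

end main

end Pool.Agent.Helper781.Fusion
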