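import Mathlib

/-!
Definitions: complex fusion categories, Frobenius-Perron dimension.
-/

set_option autoImplicit false

namespace Pool.Agent.Helper781.Fusion

/-- `d` is the Perron-Frobenius eigenvalue of the matrix `A` of natural numbers: it is an
eigenvalue, and no eigenvalue has larger absolute value. -/
def IsPFEigenvalue {n : ℕ} (A : Matrix (Fin n) (Fin n) ℕ) (d : ℝ) : Prop :=
  (d : ℂ) ∈ spectrum ℂ (A.map (fun x : ℕ => (x : ℂ))) ∧
    ∀ z ∈ spectrum ℂ (A.map (fun x : ℕ => (x : ℂ))), ‖z‖ ≤ d

open CategoryTheory CategoryTheory.Limits MonoidalCategory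

universe v u

/-- A complex fusion category: an abelian `ℂ`-linear rigid monoidal category (with bilinear tensor
product) with finite dimensional Hom spaces in which every object is a finite direct sum of simple
objects, there are finitely many isomorphism classes of simple objects, and the unit is simple. -/
structure IsFusionCategory (C : Type u) [Category.{v} C] [Abelian C] [Linear ℂ C]
    [MonoidalCategory C] [MonoidalPreadditive C] [MonoidalLinear ℂ C] [RigidCategory C] : Prop where
  finiteDimensional_hom : ∀ X Y : C, FiniteDimensional ℂ (X ⟶ Y)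
  semisimple : ∀ X : C, ∃ (n : ℕ) (S : Fin n → C) (b : Bicone S), (∀ i, Simple (S i)) ∧
    Nonempty b.IsBilimit ∧ Nonempty (X ≅ b.pt)
  finitely_many_simples : ∃ (n : ℕ) (S : Fin n → C), ∀ Y : C, Simple Y → ∃ i, Nonempty (Y ≅ S i)
  simple_unit : Simple (𝟙_ C)

/-- `S` is a complete list, without repetition, of representatives of the isomorphism classes of
simple objects. -/
structure IsSimpleList {C : Type u} [Category.{v} C] [Abelian C] {n : ℕ} (S : Fin n → C) :
    Prop where
  simple : ∀ i, Simple (S i)
  inj : ∀ i j, Nonempty (S i ≅ S j) → i = j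
  complete : ∀ Y : C, Simple Y → ∃ i, Nonempty (Y ≅ S i)

/-- The matrix of left multiplication by the class of `X` on the Grothendieck ring, in the basis of
the simple objects: the entry `(k, j)` is the multiplicity of `S k` in `X ⊗ S j`. -/
noncomputable def fusionMatrix {C : Type u} [Category.{v} C] [Abelian C] [Linear ℂ C]
    [MonoidalCategory C] {n : ℕ} (S : Fin n → C) (X : C) : Matrix (Fin n) (Fin n) ℕ :=
  fun k j => Module.finrank ℂ (S k ⟶ X ⊗ S j)

/-- The Frobenius-Perron dimension of `X` is `d`. -/
def IsFPdim {C : Type u} [Category.{v} C] [Abelian C] [Linear ℂ C] [MonoidalCategory C] (X : C)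
    (d : ℝ) : Prop :=
  ∃ (n : ℕ) (S : Fin n → C), IsSimpleList S ∧ IsPFEigenvalue (fusionMatrix S X) d

/-- The set of Frobenius-Perron dimensions of nonzero objects of fusion categories. -/
def FPdims : Set ℝ :=
  {d | ∃ (C : Type u) (_ : Category.{v} C) (_ : Abelian C) (_ : Linear ℂ C)
    (_ : MonoidalCategory C) (_ : MonoidalPreadditive C) (_ : MonoidalLinear ℂ C)
    (_ : RigidCategory C), IsFusionCategory C ∧ ∃ X : C, ¬ IsZero X ∧ IsFPdim X d}

end Pool.Agent.Helper781.Fusion
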