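import Pool.Agent.Helper781.Fusion.Transfer
import Pool.Agent.Helper781.Fusion.Defs

set_option autoImplicit false
set_option linter.unusedSectionVars false

open CategoryTheory CategoryTheory.Limits MonoidalCategory

namespace Pool.Agent.Helper781.Fusion

universe v u

section decomp

variable {C : Type u} [Category.{v} C] [Abelian C] [Linear ℂ C]

/-- Decomposition of an object into members of the list `S`. -/
structure Dec {r : ℕ} (S : Fin r → C) (Z : C) where
  n : ℕ
  idx : Fin n → Fin r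
  inc : ∀ b, S (idx b) ⟶ Z
  prj : ∀ b, Z ⟶ S (idx b)
  sum : ∑ b, prj b ≫ inc b = 𝟙 Z
  same : ∀ b, inc b ≫ prj b = 𝟙 (S (idx b))
  diff : ∀ b b', b ≠ b' → inc b ≫ prj b' = 0

variable {r : ℕ} {S : Fin r → C}

lemma exists_dec (hS : IsSimpleList S)
    (hss : ∀ X : C, ∃ (n : ℕ) (S : Fin n → C) (b : Bicone S), (∀ i, Simple (S i)) ∧
      Nonempty b.IsBilimit ∧ Nonempty (X ≅ b.pt)) (Z : C) : Nonempty (Dec S Z) := by
  obtain ⟨n, T, b, hT, ⟨hb⟩, ⟨e⟩⟩ := hss Z
  have h1 : ∀ j, ∃ i, Nonempty (T j ≅ S i) := fun j => hS.complete (T j) (hT j)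
  choose idx hidx using h1
  let f : ∀ j, T j ≅ S (idx j) := fun j => (hidx j).some
  refine ⟨⟨n, idx, fun j => (f j).inv ≫ b.ι j ≫ e.inv, fun j => e.hom ≫ b.π j ≫ (f j).hom,
    ?_, ?_, ?_⟩⟩
  · have h2 : ∀ j, (e.hom ≫ b.π j ≫ (f j).hom) ≫ (f j).inv ≫ b.ι j ≫ e.inv =
        e.hom ≫ (b.π j ≫ b.ι j) ≫ e.inv := by
      intro j; simp
    simp_rw [h2]
    rw [← Preadditive.comp_sum, ← Preadditive.sum_comp, IsBilimit.total hb]
    simp
  · intro j; simp
  · intro j j' hj
    simp only [Category.assoc, Iso.inv_hom_id_assoc]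
    rw [← Category.assoc (b.ι j), b.ι_π, dif_neg hj]
    simp

variable [hfd : ∀ X Y : C, FiniteDimensional ℂ (X ⟶ Y)]

lemma finrank_simple (hS : IsSimpleList S) (i j : Fin r) :
    Module.finrank ℂ (S i ⟶ S j) = if i = j then 1 else 0 := by
  have := hS.simple i
  have := hS.simple j
  split_ifs with h
  · subst h
    exact finrank_endomorphism_simple_eq_one ℂ (S i)
  · exact finrank_hom_simple_simple_eq_zero_of_not_iso ℂ (fun e => h (hS.inj i j ⟨e⟩))

lemma hom_zero (hS : IsSimpleList S) {i j : Fin r} (h : i ≠ j) (f : S i ⟶ S j) : f = 0 := by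
  have h1 := finrank_simple hS i j
  rw [if_neg h] at h1
  have := Module.finrank_zero_iff.mp h1
  exact Subsingleton.elim _ _

/-- Hom spaces into a decomposed object under an additive functor. -/
lemma finrank_hom_dec {Z : C} (d : Dec S Z) (H : C ⥤ C) [H.Additive] (X : C) :
    Module.finrank ℂ (X ⟶ H.obj Z) = ∑ b, Module.finrank ℂ (X ⟶ H.obj (S (d.idx b))) := by
  let e : (X ⟶ H.obj Z) ≃ₗ[ℂ] (∀ b, (X ⟶ H.obj (S (d.idx b)))) :=
    { toFun := fun g b => g ≫ H.map (d.prj b)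
      map_add' := by intro g g'; ext b; simp
      map_smul' := by intro a g; ext b; simp
      invFun := fun f => ∑ b, f b ≫ H.map (d.inc b)
      left_inv := by
        intro g
        simp only [Category.assoc]
        simp_rw [← H.map_comp]
        rw [← Preadditive.comp_sum, ← H.map_sum, d.sum, H.map_id, Category.comp_id]
      right_inv := by
        intro f
        ext b
        simp only
        rw [Preadditive.sum_comp, Finset.sum_eq_single b]
        · rw [Category.assoc, ← H.map_comp, d.same, H.map_id, Category.comp_id]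
        · intro b' _ hb
          rw [Category.assoc, ← H.map_comp, d.diff b' b hb, H.map_zero, comp_zero]
        · intro h; exact absurd (Finset.mem_univ _) h }
  rw [e.finrank_eq, Module.finrank_pi_fintype]

lemma card_idx (hS : IsSimpleList S) {Z : C} (d : Dec S Z) (i : Fin r) :
    (Finset.univ.filter fun b => d.idx b = i).card = Module.finrank ℂ (S i ⟶ Z) := by
  have h := finrank_hom_dec d (𝟭 C) (S i)
  simp only [Functor.id_obj] at h
  rw [h]
  simp_rw [finrank_simple hS]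
  rw [Finset.card_filter]
  exact Finset.sum_congr rfl fun b _ => by simp only [eq_comm]

/-- Sums over a decomposition. -/
lemma sum_dec (hS : IsSimpleList S) {Z : C} (d : Dec S Z) {A : Type*} [AddCommMonoid A]
    (g : Fin r → A) : ∑ b, g (d.idx b) = ∑ i, Module.finrank ℂ (S i ⟶ Z) • g i := by
  rw [← Finset.sum_fiberwise_of_maps_to (g := d.idx) (t := Finset.univ) (fun _ _ => Finset.mem_univ _)]
  refine Finset.sum_congr rfl fun i _ => ?_
  rw [← card_idx hS d i, ← Finset.sum_const]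
  refine Finset.sum_congr rfl fun b hb => ?_
  rw [(Finset.mem_filter.mp hb).2]

lemma finrank_expand (hS : IsSimpleList S) {Z : C} (d : Dec S Z) (H : C ⥤ C) [H.Additive]
    (X : C) : Module.finrank ℂ (X ⟶ H.obj Z) =
      ∑ i, Module.finrank ℂ (S i ⟶ Z) * Module.finrank ℂ (X ⟶ H.obj (S i)) := by
  rw [finrank_hom_dec d H X, sum_dec hS d (fun i => Module.finrank ℂ (X ⟶ H.obj (S i)))]
  simp

/-- The scalar of an endomorphism of a simple object. -/
lemma exists_scalar (X : C) [Simple X] : ∃ sc : (X ⟶ X) →ₗ[ℂ] ℂ,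
    (∀ f, f = sc f • 𝟙 X) ∧ sc (𝟙 X) = 1 := by
  have hne : (𝟙 X : X ⟶ X) ≠ 0 := id_nonzero X
  have h : ∀ f : X ⟶ X, ∃ c : ℂ, c • 𝟙 X = f := fun f => endomorphism_simple_eq_smul_id ℂ f
  choose sc hsc using h
  have hinj : ∀ c c' : ℂ, c • 𝟙 X = c' • 𝟙 X → c = c' := fun c c' h =>
    smul_left_injective ℂ hne h
  refine ⟨{ toFun := sc, map_add' := ?_, map_smul' := ?_ }, ?_, ?_⟩
  · intro f g
    apply hinj
    rw [hsc, add_smul, hsc, hsc]
  · intro a f
    apply hinj
    rw [hsc, RingHom.id_apply, smul_assoc, hsc]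
  · intro f
    exact (hsc f).symm
  · apply hinj
    simp only [LinearMap.coe_mk, AddHom.coe_mk]
    rw [hsc, one_smul]

/-- Inclusions and projections of a direct sum of the simple objects. -/
lemma exists_sum_obj (S : Fin r → C) : ∃ (P : C) (π : ∀ i, P ⟶ S i) (ι : ∀ i, S i ⟶ P),
    (∀ i, ι i ≫ π i = 𝟙 (S i)) ∧ (∀ i j, i ≠ j → ι i ≫ π j = 0) ∧ ∑ i, π i ≫ ι i = 𝟙 P := by
  have : HasFiniteBiproducts C := Abelian.hasFiniteBiproducts
  refine ⟨⨁ S, biproduct.π S, biproduct.ι S, fun i => biproduct.ι_π_self S i,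
    fun i j h => biproduct.ι_π_ne S h, biproduct.total⟩

/-- The base data of a semisimple category. -/
lemma exists_base (hS : IsSimpleList S) (dec : ∀ Z, Dec S Z) :
    ∃ (P : C) (B : BaseData P (Fin r)) (π : ∀ i, P ⟶ S i) (ι : ∀ i, S i ⟶ P),
      (∀ i, π i ≫ ι i = B.q i) ∧ (∀ i, ι i ≫ π i = 𝟙 (S i)) ∧ (∀ i j, i ≠ j → ι i ≫ π j = 0) ∧
      ∑ i, π i ≫ ι i = 𝟙 P := by
  obtain ⟨P, π, ι, h1, h2, h3⟩ := exists_sum_obj S
  have hsc : ∀ i, ∃ sc : (S i ⟶ S i) →ₗ[ℂ] ℂ, (∀ f, f = sc f • 𝟙 (S i)) ∧ sc (𝟙 (S i)) = 1 := by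
    intro i
    have := hS.simple i
    exact exists_scalar (S i)
  choose sc hsc1 hsc2 using hsc
  have hq : ∀ i j, (π i ≫ ι i) ≫ (π j ≫ ι j) = if i = j then π i ≫ ι i else 0 := by
    intro i j
    rw [Category.assoc, ← Category.assoc (ι i)]
    split_ifs with h
    · subst h; rw [h1, Category.id_comp]
    · rw [h2 i j h]; simp
  let coef : Fin r → ((P ⟶ P) →ₗ[ℂ] ℂ) := fun i =>
    (sc i).comp ((Linear.leftComp ℂ (S i) (ι i)).comp (Linear.rightComp ℂ P (π i)))
  have hcoef : ∀ i a, coef i a = sc i (ι i ≫ a ≫ π i) := fun i a => rfl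
  refine ⟨P, ⟨fun i => π i ≫ ι i, coef, hq, h3, ?_, ?_, fun Z => (dec Z).n,
    fun Z b => π _ ≫ (dec Z).inc b, fun Z b => (dec Z).prj b ≫ ι _, ?_⟩, π, ι, fun i => rfl,
    h1, h2, h3⟩
  · intro i
    rw [hcoef, Category.assoc, h1, Category.comp_id, h1, hsc2]
  · intro a
    have e1 : a = (∑ i, π i ≫ ι i) ≫ a ≫ (∑ j, π j ≫ ι j) := by rw [h3]; simp
    conv_lhs => rw [e1]
    rw [Preadditive.sum_comp]
    refine Finset.sum_congr rfl fun i _ => ?_
    rw [Preadditive.comp_sum, Preadditive.comp_sum, Finset.sum_eq_single i]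
    · rw [hcoef]
      have e2 : (π i ≫ ι i) ≫ a ≫ π i ≫ ι i = π i ≫ (ι i ≫ a ≫ π i) ≫ ι i := by
        simp only [Category.assoc]
      rw [e2]
      conv_lhs => rw [hsc1 i (ι i ≫ a ≫ π i)]
      simp
    · intro j _ hj
      have e2 : (π i ≫ ι i) ≫ a ≫ π j ≫ ι j = π i ≫ (ι i ≫ a ≫ π j) ≫ ι j := by
        simp only [Category.assoc]
      rw [e2, hom_zero hS (Ne.symm hj) (ι i ≫ a ≫ π j)]
      simp
    · intro h; exact absurd (Finset.mem_univ _) h
  · intro Z
    have e3 : ∀ b, ((dec Z).prj b ≫ ι ((dec Z).idx b)) ≫ π ((dec Z).idx b) ≫ (dec Z).inc b =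
        (dec Z).prj b ≫ (dec Z).inc b := by
      intro b
      rw [Category.assoc, ← Category.assoc (ι _), h1, Category.id_comp]
    exact (Finset.sum_congr rfl fun b _ => e3 b).trans (dec Z).sum

/-- The path data of an additive functor on a semisimple category. -/
noncomputable def pathData {P : C} (B : BaseData P (Fin r)) (π : ∀ i, P ⟶ S i)
    (ι : ∀ i, S i ⟶ P) (hq : ∀ i, π i ≫ ι i = B.q i) (h1 : ∀ i, ι i ≫ π i = 𝟙 (S i))
    (h2 : ∀ i j, i ≠ j → ι i ≫ π j = 0) (h3 : ∑ i, π i ≫ ι i = 𝟙 P) (F : C ⥤ C) [F.Additive]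
    (d : ∀ j, Dec S (F.obj (S j))) : PathData B F (Σ j, Fin (d j).n) where
  s := fun e => (d e.1).idx e.2
  t := fun e => e.1
  m := fun e => π _ ≫ (d e.1).inc e.2 ≫ F.map (ι e.1)
  m' := fun e => F.map (π e.1) ≫ (d e.1).prj e.2 ≫ ι _
  sum := by
    rw [Fintype.sum_sigma]
    have e1 : ∀ (j : Fin r) (b : Fin (d j).n), (F.map (π j) ≫ (d j).prj b ≫ ι ((d j).idx b)) ≫
        π ((d j).idx b) ≫ (d j).inc b ≫ F.map (ι j) =
        F.map (π j) ≫ ((d j).prj b ≫ (d j).inc b) ≫ F.map (ι j) := by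
      intro j b
      simp only [Category.assoc]
      rw [← Category.assoc (ι _), h1, Category.id_comp]
    simp_rw [e1]
    simp_rw [← Preadditive.comp_sum, ← Preadditive.sum_comp, (d _).sum, Category.id_comp,
      ← F.map_comp]
    rw [← F.map_sum, h3, F.map_id]
  orth := by
    rintro ⟨j, b⟩ ⟨j', b'⟩
    simp only [Category.assoc]
    rw [← Category.assoc (F.map (ι j)), ← F.map_comp]
    by_cases hj : j = j'
    · subst hj
      rw [h1, F.map_id, Category.id_comp, ← Category.assoc ((d j).inc b)]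
      by_cases hb : b = b'
      · subst hb
        rw [(d j).same, Category.id_comp, if_pos rfl, hq]
      · rw [(d j).diff b b' hb, if_neg (by simpa using hb)]
        simp
    · rw [h2 j j' hj, if_neg (by simp [hj])]
      simp
  q_m := by
    rintro ⟨j, b⟩
    simp only
    rw [← hq, Category.assoc, ← Category.assoc (ι _), h1, Category.id_comp]
  m_q := by
    rintro ⟨j, b⟩
    simp only
    rw [← hq]
    simp only [Category.assoc]
    rw [← F.map_comp, ← Category.assoc (ι j), h1, Category.id_comp]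

end decomp

end Pool.Agent.Helper781.Fusion
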