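import Mathlib

set_option autoImplicit false

namespace Pool.Agent.Helper781.Fusion

open Matrix

/-- Perron-Frobenius for a strictly positive matrix: a positive vector that is an eigenvector of
every matrix commuting with `B`. -/
theorem pf_common {ι : Type*} [Fintype ι] [DecidableEq ι] [Nonempty ι] (B : Matrix ι ι ℝ)
    (hB : ∀ i j, 0 < B i j) : ∃ r : ι → ℝ, (∀ i, 0 < r i) ∧
      ∀ A : Matrix ι ι ℝ, A * B = B * A → ∃ d : ℝ, A.mulVec r = d • r := by
  classical
  -- positivity of B v for nonzero nonnegative v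
  have hpos : ∀ v : ι → ℝ, (∀ i, 0 ≤ v i) → v ≠ 0 → ∀ i, 0 < (B.mulVec v) i := by
    intro v hv hv0 i
    obtain ⟨j, hj⟩ := Function.ne_iff.1 hv0
    have hj' : 0 < v j := lt_of_le_of_ne (hv j) (Ne.symm hj)
    unfold Matrix.mulVec dotProduct
    exact Finset.sum_pos' (fun k _ => mul_nonneg (hB i k).le (hv k))
      ⟨j, Finset.mem_univ _, mul_pos (hB i j) hj'⟩
  set M : ℝ := ∑ i, ∑ j, B i j with hM
  have hM0 : 0 ≤ M := Finset.sum_nonneg fun i _ => Finset.sum_nonneg fun j _ => (hB i j).le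
  let S : Set ((ι → ℝ) × ℝ) := {q | ∀ i, q.2 * q.1 i ≤ (B.mulVec q.1) i}
  have hSc : IsClosed S := by
    have : S = ⋂ i, {q : (ι → ℝ) × ℝ | q.2 * q.1 i ≤ (B.mulVec q.1) i} := by
      ext q; simp [S]
    rw [this]
    refine isClosed_iInter fun i => ?_
    refine isClosed_le ?_ ?_
    · exact continuous_snd.mul ((continuous_apply i).comp continuous_fst)
    · unfold Matrix.mulVec dotProduct
      refine continuous_finsetSum _ fun j _ => ?_
      exact continuous_const.mul ((continuous_apply j).comp continuous_fst)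
  have hK : IsCompact ((stdSimplex ℝ ι ×ˢ Set.Icc (0:ℝ) M) ∩ S) :=
    ((isCompact_stdSimplex ℝ ι).prod isCompact_Icc).inter_right hSc
  obtain ⟨i0⟩ : Nonempty ι := inferInstance
  have hne : ((stdSimplex ℝ ι ×ˢ Set.Icc (0:ℝ) M) ∩ S).Nonempty := by
    refine ⟨(Pi.single i0 1, 0), ⟨⟨single_mem_stdSimplex ℝ i0, le_refl _, hM0⟩, ?_⟩⟩
    intro i
    simp only [zero_mul]
    unfold Matrix.mulVec dotProduct
    refine Finset.sum_nonneg fun k _ => mul_nonneg (hB i k).le ?_
    by_cases h : k = i0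
    · subst h; simp
    · simp [Pi.single_eq_of_ne h]
  obtain ⟨⟨x, lam⟩, hxm, hmax⟩ := hK.exists_isMaxOn hne continuous_snd.continuousOn
  obtain ⟨⟨hxs, hl0, hlM⟩, hxS⟩ := hxm
  simp only at hxs hl0 hlM
  have hxS' : ∀ i, lam * x i ≤ (B.mulVec x) i := hxS
  have hx0 : ∀ i, 0 ≤ x i := hxs.1
  have hx1 : ∑ i, x i = 1 := hxs.2
  have hxne : x ≠ 0 := by
    rintro rfl
    simp at hx1
  have hy : ∀ i, 0 < (B.mulVec x) i := hpos x hx0 hxne
  have heig : B.mulVec x = lam • x := by
    by_contra hcon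
    set y := B.mulVec x with hydef
    have hw0 : ∀ i, 0 ≤ (y - lam • x) i := fun i => by
      simp only [Pi.sub_apply, Pi.smul_apply, smul_eq_mul]
      linarith [hxS' i]
    have hwne : y - lam • x ≠ 0 := sub_ne_zero.2 hcon
    have hw := hpos _ hw0 hwne
    have hw' : ∀ i, lam * y i < (B.mulVec y) i := by
      intro i
      have := hw i
      rw [Matrix.mulVec_sub, Matrix.mulVec_smul] at this
      simp only [Pi.sub_apply, Pi.smul_apply, smul_eq_mul] at this
      rw [← hydef] at this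
      linarith
    -- choose t
    obtain ⟨j, -, hj⟩ := Finset.exists_min_image Finset.univ (fun i => (B.mulVec y) i / y i)
      ⟨i0, Finset.mem_univ _⟩
    set t := (B.mulVec y) j / y j with ht
    have htl : lam < t := by
      rw [ht, lt_div_iff₀ (hy j)]
      exact hw' j
    have hty : ∀ i, t * y i ≤ (B.mulVec y) i := by
      intro i
      have := hj i (Finset.mem_univ _)
      rwa [le_div_iff₀ (hy i)] at this
    set s := ∑ i, y i with hs
    have hspos : 0 < s := Finset.sum_pos (fun i _ => hy i) ⟨i0, Finset.mem_univ _⟩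
    have hys : (s⁻¹ • y) ∈ stdSimplex ℝ ι := by
      refine ⟨fun i => ?_, ?_⟩
      · simp only [Pi.smul_apply, smul_eq_mul]
        exact mul_nonneg (inv_nonneg.2 hspos.le) (hy i).le
      · simp only [Pi.smul_apply, smul_eq_mul]
        rw [← Finset.mul_sum, ← hs, inv_mul_cancel₀ hspos.ne']
    have htS : ∀ i, t * (s⁻¹ • y) i ≤ (B.mulVec (s⁻¹ • y)) i := by
      intro i
      rw [Matrix.mulVec_smul]
      simp only [Pi.smul_apply, smul_eq_mul]
      have := mul_le_mul_of_nonneg_left (hty i) (inv_nonneg.2 hspos.le)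
      linarith
    have htM : t ≤ M := by
      have h1 : ∑ i, t * (s⁻¹ • y) i ≤ ∑ i, (B.mulVec (s⁻¹ • y)) i :=
        Finset.sum_le_sum fun i _ => htS i
      rw [← Finset.mul_sum, hys.2, mul_one] at h1
      refine h1.trans ?_
      rw [hM]
      refine Finset.sum_le_sum fun i _ => ?_
      unfold Matrix.mulVec dotProduct
      refine Finset.sum_le_sum fun k _ => ?_
      have h2 : (s⁻¹ • y) k ≤ 1 := by
        rw [← hys.2]
        exact Finset.single_le_sum (fun m _ => hys.1 m) (Finset.mem_univ k)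
      calc B i k * (s⁻¹ • y) k ≤ B i k * 1 := mul_le_mul_of_nonneg_left h2 (hB i k).le
        _ = B i k := mul_one _
    have := hmax (show ((s⁻¹ • y, t) : (ι → ℝ) × ℝ) ∈ _ from
      ⟨⟨hys, (hl0.trans htl.le), htM⟩, htS⟩)
    simp only [Set.mem_ofPred_eq] at this
    linarith
  have hlpos : 0 < lam := by
    obtain ⟨j, hj⟩ := Function.ne_iff.1 hxne
    have hj' : 0 < x j := lt_of_le_of_ne (hx0 j) (Ne.symm hj)
    have h1 := hy j
    rw [heig] at h1
    simp only [Pi.smul_apply, smul_eq_mul] at h1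
    exact (pos_iff_pos_of_mul_pos h1).2 hj'
  have hxpos : ∀ i, 0 < x i := by
    intro i
    have h1 := hy i
    rw [heig] at h1
    simp only [Pi.smul_apply, smul_eq_mul] at h1
    exact (pos_iff_pos_of_mul_pos h1).1 hlpos
  refine ⟨x, hxpos, fun A hAB => ?_⟩
  -- uniqueness
  set y := A.mulVec x with hydef
  have hBy : B.mulVec y = lam • y := by
    rw [hydef, Matrix.mulVec_mulVec, ← hAB, ← Matrix.mulVec_mulVec, heig, Matrix.mulVec_smul]
  obtain ⟨j, -, hj⟩ := Finset.exists_min_image Finset.univ (fun i => y i / x i)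
    ⟨i0, Finset.mem_univ _⟩
  refine ⟨y j / x j, ?_⟩
  set t := y j / x j with ht
  have hz0 : ∀ i, 0 ≤ (y - t • x) i := by
    intro i
    simp only [Pi.sub_apply, Pi.smul_apply, smul_eq_mul]
    have := hj i (Finset.mem_univ _)
    rw [le_div_iff₀ (hxpos i)] at this
    linarith
  have hBz : B.mulVec (y - t • x) = lam • (y - t • x) := by
    rw [Matrix.mulVec_sub, Matrix.mulVec_smul, hBy, heig, smul_sub, smul_comm]
  by_contra hcon
  have hzne : y - t • x ≠ 0 := sub_ne_zero.2 hcon
  have h1 := hpos _ hz0 hzne j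
  rw [hBz] at h1
  simp only [Pi.sub_apply, Pi.smul_apply, smul_eq_mul] at h1
  rw [ht, div_mul_cancel₀ _ (hxpos j).ne', sub_self, mul_zero] at h1
  exact lt_irrefl _ h1

/-- A nonnegative matrix with a positive eigenvector has spectral radius at most the eigenvalue. -/
theorem pf_bound {ι : Type*} [Fintype ι] [DecidableEq ι] (A : Matrix ι ι ℝ)
    (hA : ∀ i j, 0 ≤ A i j) (r : ι → ℝ) (hr : ∀ i, 0 < r i) (d : ℝ)
    (h : A.mulVec r = d • r) : ∀ z ∈ spectrum ℂ (A.map (fun x : ℝ => (x : ℂ))), ‖z‖ ≤ d := by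
  intro z hz
  rw [← Matrix.spectrum_toLin', ← Module.End.hasEigenvalue_iff_mem_spectrum] at hz
  obtain ⟨v, hv⟩ := hz.exists_hasEigenvector
  have hv0 := hv.2
  have hve : (A.map (fun x : ℝ => (x : ℂ))).mulVec v = z • v := by
    have := hv.apply_eq_smul
    rwa [Matrix.toLin'_apply] at this
  obtain ⟨k, hk⟩ := Function.ne_iff.1 hv0
  obtain ⟨i, -, hi⟩ := Finset.exists_max_image Finset.univ (fun i => ‖v i‖ / r i)
    ⟨k, Finset.mem_univ _⟩
  set c := ‖v i‖ / r i with hc
  have hvi : ∀ j, ‖v j‖ ≤ c * r j := by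
    intro j
    have := hi j (Finset.mem_univ _)
    rwa [div_le_iff₀ (hr j)] at this
  have hcpos : 0 < c := by
    have h1 := hi k (Finset.mem_univ _)
    have h2 : 0 < ‖v k‖ / r k := div_pos (norm_pos_iff.2 hk) (hr k)
    exact h2.trans_le h1
  have h1 : z * v i = ∑ j, (A i j : ℂ) * v j := by
    have := congrFun hve i
    simp only [Matrix.mulVec, dotProduct, Matrix.map_apply, Pi.smul_apply, smul_eq_mul] at this
    exact this.symm
  have h2 : ‖z‖ * ‖v i‖ ≤ d * (c * r i) := by
    rw [← norm_mul, h1]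
    refine (norm_sum_le _ _).trans ?_
    have h3 : ∑ j, A i j * r j = d * r i := by
      have := congrFun h i
      simpa [Matrix.mulVec, dotProduct] using this
    calc ∑ j, ‖(A i j : ℂ) * v j‖ ≤ ∑ j, c * (A i j * r j) := by
          refine Finset.sum_le_sum fun j _ => ?_
          rw [norm_mul, Complex.norm_real, Real.norm_of_nonneg (hA i j)]
          calc A i j * ‖v j‖ ≤ A i j * (c * r j) := mul_le_mul_of_nonneg_left (hvi j) (hA i j)
            _ = c * (A i j * r j) := by ring
      _ = c * (d * r i) := by rw [← Finset.mul_sum, h3]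
      _ = d * (c * r i) := by ring
  have h3 : ‖v i‖ = c * r i := by rw [hc, div_mul_cancel₀ _ (hr i).ne']
  rw [h3] at h2
  exact le_of_mul_le_mul_right h2 (mul_pos hcpos (hr i))

end Pool.Agent.Helper781.Fusion
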