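import Pool.Agent.Helper781.Fusion.Tensor

set_option autoImplicit false
set_option linter.unusedSectionVars false

open CategoryTheory CategoryTheory.Limits MonoidalCategory

namespace Pool.Agent.Helper781.Fusion

universe v u

section pf

variable {C : Type u} [Category.{v} C] [Abelian C] [Linear ℂ C] [MonoidalCategory C]
  [MonoidalPreadditive C] [MonoidalLinear ℂ C]

variable {r : ℕ} {S : Fin r → C}

/-- A nonzero map from a simple object splits. -/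
lemma exists_retract (dec : ∀ Z, Dec S Z) (hS : IsSimpleList S) {X Z : C} [Simple X]
    (f : X ⟶ Z) (hf : f ≠ 0) : ∃ s : Z ⟶ X, f ≫ s = 𝟙 X := by
  have h1 : ∃ b, f ≫ (dec Z).prj b ≠ 0 := by
    by_contra hcon
    push Not at hcon
    apply hf
    have : f = f ≫ ∑ b, (dec Z).prj b ≫ (dec Z).inc b := by rw [(dec Z).sum, Category.comp_id]
    rw [this, Preadditive.comp_sum]
    refine Finset.sum_eq_zero fun b _ => ?_
    rw [← Category.assoc, hcon, zero_comp]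
  obtain ⟨b, hb⟩ := h1
  have := hS.simple ((dec Z).idx b)
  have : IsIso (f ≫ (dec Z).prj b) := isIso_of_hom_simple hb
  exact ⟨(dec Z).prj b ≫ inv (f ≫ (dec Z).prj b), by
    rw [← Category.assoc, IsIso.hom_inv_id]⟩

lemma coev_ne_zero {X Y : C} [ExactPairing X Y] (hX : ¬ IsZero X) : (η_ X Y) ≠ 0 := by
  intro h
  apply hX
  rw [IsZero.iff_id_eq_zero]
  have h1 := ExactPairing.evaluation_coevaluation X Y
  rw [h] at h1
  have h2 : (λ_ X).hom ≫ (ρ_ X).inv = 0 := by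
    rw [← h1]
    simp
  have h3 : 𝟙 X = (λ_ X).inv ≫ ((λ_ X).hom ≫ (ρ_ X).inv) ≫ (ρ_ X).hom := by simp
  rw [h3, h2]; simp

lemma dual_tensor_ne_zero (dec : ∀ Z, Dec S Z) (hS : IsSimpleList S) [Simple (𝟙_ C)] {X X' Y : C}
    [ExactPairing X X'] (hX : ¬ IsZero X) (hY : ¬ IsZero Y) : ¬ IsZero (X' ⊗ Y) := by
  intro h
  apply hY
  obtain ⟨s, hs⟩ := exists_retract dec hS (η_ X X') (coev_ne_zero hX)
  have h1 : IsZero (X ⊗ (X' ⊗ Y)) := (tensorLeft X).map_isZero h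
  have h2 : IsZero ((X ⊗ X') ⊗ Y) := h1.of_iso (α_ X X' Y)
  rw [IsZero.iff_id_eq_zero]
  have h3 : (𝟙 Y : Y ⟶ Y) = (λ_ Y).inv ≫ ((η_ X X') ▷ Y ≫ s ▷ Y) ≫ (λ_ Y).hom := by
    rw [← comp_whiskerRight, hs]; simp
  rw [h3, h2.eq_zero_of_tgt (η_ X X' ▷ Y)]
  simp

lemma exists_hom [∀ X Y : C, FiniteDimensional ℂ (X ⟶ Y)] [RigidCategory C] (dec : ∀ Z, Dec S Z)
    (hS : IsSimpleList S) [Simple (𝟙_ C)]
    {X Y : C} (hX : ¬ IsZero X) (hY : ¬ IsZero Y) :
    ∃ j, 0 < Module.finrank ℂ (Y ⟶ X ⊗ S j) := by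
  have h1 : ¬ IsZero (Xᘁ ⊗ Y) := dual_tensor_ne_zero dec hS hX hY
  have h2 : ∃ b, (dec (Xᘁ ⊗ Y)).prj b ≠ 0 := by
    by_contra hcon
    push Not at hcon
    apply h1
    rw [IsZero.iff_id_eq_zero, ← (dec (Xᘁ ⊗ Y)).sum]
    refine Finset.sum_eq_zero fun b _ => ?_
    rw [hcon, zero_comp]
  obtain ⟨b, hb⟩ := h2
  refine ⟨(dec (Xᘁ ⊗ Y)).idx b, ?_⟩
  rw [Module.finrank_pos_iff_exists_ne_zero]
  refine ⟨tensorLeftHomEquiv Y X Xᘁ (S ((dec (Xᘁ ⊗ Y)).idx b)) ((dec (Xᘁ ⊗ Y)).prj b), ?_⟩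
  intro h
  apply hb
  apply (tensorLeftHomEquiv Y X Xᘁ (S ((dec (Xᘁ ⊗ Y)).idx b))).injective
  rw [h]
  simp [tensorLeftHomEquiv]

/-- Multiplicity matrix, with real entries. -/
noncomputable def NM (S : Fin r → C) (X : C) : Matrix (Fin r) (Fin r) ℝ :=
  fun k j => (Module.finrank ℂ (S k ⟶ X ⊗ S j) : ℝ)

/-- Matrix of right multiplication by the sum of the simple objects. -/
noncomputable def RM (S : Fin r → C) : Matrix (Fin r) (Fin r) ℝ :=
  fun k i => ∑ j, (Module.finrank ℂ (S k ⟶ S i ⊗ S j) : ℝ)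

lemma finrank_congr {X Y Z : C} (f : Y ≅ Z) :
    Module.finrank ℂ (X ⟶ Y) = Module.finrank ℂ (X ⟶ Z) :=
  (Linear.homCongr ℂ (Iso.refl X) f).finrank_eq

lemma NM_RM [∀ X Y : C, FiniteDimensional ℂ (X ⟶ Y)] (dec : ∀ Z, Dec S Z)
    (hS : IsSimpleList S) (X : C) : NM S X * RM S = RM S * NM S X := by
  ext k i
  rw [Matrix.mul_apply, Matrix.mul_apply]
  have h1 : ∀ j, (Module.finrank ℂ (S k ⟶ X ⊗ (S i ⊗ S j)) : ℝ) =
      ∑ l, (Module.finrank ℂ (S l ⟶ S i ⊗ S j) : ℝ) * (Module.finrank ℂ (S k ⟶ X ⊗ S l) : ℝ) := by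
    intro j
    exact_mod_cast finrank_expand hS (dec (S i ⊗ S j)) (tensorLeft X) (S k)
  have h2 : ∀ j, (Module.finrank ℂ (S k ⟶ (X ⊗ S i) ⊗ S j) : ℝ) =
      ∑ l, (Module.finrank ℂ (S l ⟶ X ⊗ S i) : ℝ) * (Module.finrank ℂ (S k ⟶ S l ⊗ S j) : ℝ) := by
    intro j
    exact_mod_cast finrank_expand hS (dec (X ⊗ S i)) (tensorRight (S j)) (S k)
  have h3 : ∀ j, (Module.finrank ℂ (S k ⟶ (X ⊗ S i) ⊗ S j) : ℝ) =
      (Module.finrank ℂ (S k ⟶ X ⊗ (S i ⊗ S j)) : ℝ) := by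
    intro j
    rw [finrank_congr (α_ X (S i) (S j))]
  have e1 : ∑ l, NM S X k l * RM S l i = ∑ j, (Module.finrank ℂ (S k ⟶ X ⊗ (S i ⊗ S j)) : ℝ) := by
    simp_rw [h1]
    rw [Finset.sum_comm]
    refine Finset.sum_congr rfl fun l _ => ?_
    unfold NM RM
    rw [Finset.mul_sum]
    exact Finset.sum_congr rfl fun j _ => mul_comm _ _
  have e2 : ∑ l, RM S k l * NM S X l i = ∑ j, (Module.finrank ℂ (S k ⟶ (X ⊗ S i) ⊗ S j) : ℝ) := by
    simp_rw [h2]
    rw [Finset.sum_comm]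
    refine Finset.sum_congr rfl fun l _ => ?_
    unfold NM RM
    rw [Finset.sum_mul]
    exact Finset.sum_congr rfl fun j _ => mul_comm _ _
  rw [e1, e2]
  exact Finset.sum_congr rfl fun j _ => (h3 j).symm

lemma RM_pos [∀ X Y : C, FiniteDimensional ℂ (X ⟶ Y)] [RigidCategory C] (dec : ∀ Z, Dec S Z)
    (hS : IsSimpleList S) [Simple (𝟙_ C)] (k i : Fin r) : 0 < RM S k i := by
  have := hS.simple i
  have := hS.simple k
  obtain ⟨j, hj⟩ := exists_hom dec hS (X := S i) (Y := S k) (Simple.not_isZero _)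
    (Simple.not_isZero _)
  unfold RM
  refine Finset.sum_pos' (fun j _ => Nat.cast_nonneg _) ⟨j, Finset.mem_univ _, ?_⟩
  exact_mod_cast hj

/-- The common Perron-Frobenius eigenvector. -/
lemma exists_pf [∀ X Y : C, FiniteDimensional ℂ (X ⟶ Y)] [RigidCategory C] [Nonempty (Fin r)]
    (dec : ∀ Z, Dec S Z) (hS : IsSimpleList S) [Simple (𝟙_ C)] :
    ∃ (w : Fin r → ℝ) (d : C → ℝ), (∀ i, 0 < w i) ∧ (∀ X, (NM S X).mulVec w = d X • w) ∧
      (∀ i, 0 < d (S i)) := by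
  obtain ⟨w, hw, h⟩ := pf_common (RM S) (RM_pos dec hS)
  have h1 : ∀ X, ∃ d : ℝ, (NM S X).mulVec w = d • w := fun X => h _ (NM_RM dec hS X)
  choose d hd using h1
  refine ⟨w, d, hw, hd, fun i => ?_⟩
  have := hS.simple i
  obtain ⟨j, hj⟩ := exists_hom dec hS (X := S i) (Y := S i) (Simple.not_isZero _)
    (Simple.not_isZero _)
  have h2 : ((NM S (S i)).mulVec w) i = d (S i) * w i := by rw [hd]; rfl
  have h3 : 0 < ((NM S (S i)).mulVec w) i := by
    unfold Matrix.mulVec dotProduct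
    refine Finset.sum_pos' (fun l _ => mul_nonneg (Nat.cast_nonneg _) (hw l).le)
      ⟨j, Finset.mem_univ _, mul_pos ?_ (hw j)⟩
    change (0 : ℝ) < (Module.finrank ℂ (S i ⟶ S i ⊗ S j) : ℝ)
    exact_mod_cast hj
  rw [h2] at h3
  exact (mul_pos_iff_of_pos_right (hw i)).mp h3

/-- The Perron-Frobenius eigenvalue is the eigenvalue of the positive eigenvector. -/
lemma pf_unique (V : C) (w : Fin r → ℝ) (hw : ∀ i, 0 < w i) [Nonempty (Fin r)] (d d0 : ℝ)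
    (h : (NM S V).mulVec w = d • w) (h0 : IsPFEigenvalue (fusionMatrix S V) d0) : d0 = d := by
  have hmap : (fusionMatrix S V).map (fun x : ℕ => (x : ℂ)) = (NM S V).map (fun x : ℝ => (x : ℂ)) := by
    ext k j
    simp [fusionMatrix, NM]
  have hb := pf_bound (NM S V) (fun i j => Nat.cast_nonneg _) w hw d h
  obtain ⟨h1, h2⟩ := h0
  rw [hmap] at h1 h2
  have h3 := hb _ h1
  have h4 : (d : ℂ) ∈ spectrum ℂ ((NM S V).map (fun x : ℝ => (x : ℂ))) := by
    rw [← Matrix.spectrum_toLin', ← Module.End.hasEigenvalue_iff_mem_spectrum]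
    refine Module.End.hasEigenvalue_of_hasEigenvector (x := fun i => (w i : ℂ)) ⟨?_, ?_⟩
    · rw [Module.End.mem_eigenspace_iff, Matrix.toLin'_apply]
      ext i
      have h5 := congrFun h i
      simp only [Matrix.mulVec, dotProduct, Matrix.map_apply, Pi.smul_apply, smul_eq_mul] at h5 ⊢
      exact_mod_cast h5
    · intro h6
      obtain ⟨i⟩ := ‹Nonempty (Fin r)›
      have h7 := congrFun h6 i
      simp only [Pi.zero_apply, Complex.ofReal_eq_zero] at h7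
      exact (hw i).ne' h7
  have h5 := h2 _ h4
  rw [Complex.norm_real, Real.norm_eq_abs] at h3 h5
  exact le_antisymm ((le_abs_self _).trans h3) ((le_abs_self _).trans h5)

end pf

end Pool.Agent.Helper781.Fusion
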