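import Mathlib

set_option autoImplicit false

namespace Pool.Agent.Helper781.Fusion

open Matrix

/-- Extrapolation to `n = 0` of a sum of traces of powers of injective operators. -/
theorem recur_mem (K : Subfield ℂ) {κ : Type*} [Fintype κ] (c : κ → ℂ) (Q : κ → Type*)
    [∀ k, AddCommGroup (Q k)] [∀ k, Module ℂ (Q k)] [∀ k, FiniteDimensional ℂ (Q k)]
    (M : ∀ k, Q k →ₗ[ℂ] Q k) (hM : ∀ k, Function.Injective (M k))
    (h : ∀ n, 1 ≤ n → ∑ k, c k * LinearMap.trace ℂ (Q k) (M k ^ n) ∈ K) :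
    ∑ k, c k * (Module.finrank ℂ (Q k) : ℂ) ∈ K := by
  classical
  set u : ℕ → ℂ := fun n => ∑ k, c k * LinearMap.trace ℂ (Q k) (M k ^ n) with hu
  set χ : Polynomial ℂ := ∏ k, (M k).charpoly with hχ
  have hχM : ∀ k, Polynomial.aeval (M k) χ = 0 := by
    intro k
    have : (M k).charpoly ∣ χ := Finset.dvd_prod_of_mem _ (Finset.mem_univ k)
    obtain ⟨q, hq⟩ := this
    rw [hq, map_mul, LinearMap.aeval_self_charpoly, zero_mul]
  have hχ0 : χ.coeff 0 ≠ 0 := by
    rw [Polynomial.coeff_zero_eq_eval_zero, hχ, Polynomial.eval_prod]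
    refine Finset.prod_ne_zero_iff.2 fun k _ => ?_
    rw [← Polynomial.coeff_zero_eq_eval_zero]
    intro h0
    have hdet : LinearMap.det (M k) = 0 := by
      rw [LinearMap.det_eq_sign_charpoly_coeff, h0, mul_zero]
    have hu1 : IsUnit (M k) := by
      rw [LinearMap.isUnit_iff_ker_eq_bot]
      exact LinearMap.ker_eq_bot.2 (hM k)
    have := LinearMap.isUnit_det _ hu1
    rw [hdet] at this
    exact not_isUnit_zero this
  set d := χ.natDegree with hd
  have hrec : ∀ n, ∑ j ∈ Finset.range (d + 1), χ.coeff j * u (n + j) = 0 := by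
    intro n
    have h1 : ∀ k, ∑ j ∈ Finset.range (d + 1), χ.coeff j * LinearMap.trace ℂ (Q k) (M k ^ (n + j)) = 0 := by
      intro k
      have h2 : M k ^ n * Polynomial.aeval (M k) χ = 0 := by rw [hχM, mul_zero]
      rw [Polynomial.aeval_eq_sum_range, Finset.mul_sum] at h2
      have h3 := congrArg (LinearMap.trace ℂ (Q k)) h2
      rw [map_sum, map_zero] at h3
      rw [← h3]
      refine Finset.sum_congr rfl fun j _ => ?_
      rw [mul_smul_comm, ← pow_add, map_smul, smul_eq_mul]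
    simp only [hu, Finset.mul_sum]
    rw [Finset.sum_comm]
    refine Finset.sum_eq_zero fun k _ => ?_
    have := h1 k
    calc ∑ j ∈ Finset.range (d + 1), χ.coeff j * (c k * LinearMap.trace ℂ (Q k) (M k ^ (n + j)))
        = c k * ∑ j ∈ Finset.range (d + 1), χ.coeff j * LinearMap.trace ℂ (Q k) (M k ^ (n + j)) := by
          rw [Finset.mul_sum]
          refine Finset.sum_congr rfl fun j _ => ?_
          ring
      _ = 0 := by rw [this, mul_zero]
  obtain ⟨ψ, hψ⟩ : ∃ ψ : ℂ →ₗ[K] K, ∀ x : K, ψ (x : ℂ) = x := by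
    obtain ⟨ψ, hψ⟩ := (Algebra.linearMap K ℂ).exists_leftInverse_of_injective
      (LinearMap.ker_eq_bot.2 (by
        intro a b hab
        exact Subtype.ext hab))
    refine ⟨ψ, fun x => ?_⟩
    exact LinearMap.congr_fun hψ x
  have hψmul : ∀ (a : ℂ) (x : ℂ), x ∈ K → (ψ (a * x) : ℂ) = ψ a * x := by
    intro a x hx
    have h1 : a * x = (⟨x, hx⟩ : K) • a := by
      rw [Subfield.smul_def, smul_eq_mul]
      exact mul_comm _ _
    rw [h1, map_smul]
    rw [smul_eq_mul, mul_comm]
    rfl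
  set P : ℕ → ℂ := fun j => (ψ (χ.coeff j / χ.coeff 0) : ℂ) with hP
  have hP0 : P 0 = 1 := by
    simp only [hP]
    rw [div_self hχ0]
    have := hψ 1
    have h2 : ((1 : K) : ℂ) = 1 := rfl
    rw [h2] at this
    rw [this]
    rfl
  have hPK : ∀ j, P j ∈ K := fun j => (ψ (χ.coeff j / χ.coeff 0)).2
  have huK : ∀ n, 1 ≤ n → u n ∈ K := h
  set w : ℕ → ℂ := fun n => ∑ j ∈ Finset.range (d + 1), P j * u (n + j) with hw
  have hw1 : ∀ n, 1 ≤ n → w n = 0 := by
    intro n hn
    have h1 : ∑ j ∈ Finset.range (d + 1), (χ.coeff j / χ.coeff 0) * u (n + j) = 0 := by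
      have := hrec n
      calc ∑ j ∈ Finset.range (d + 1), (χ.coeff j / χ.coeff 0) * u (n + j)
          = (∑ j ∈ Finset.range (d + 1), χ.coeff j * u (n + j)) / χ.coeff 0 := by
            rw [Finset.sum_div]
            refine Finset.sum_congr rfl fun j _ => ?_
            ring
        _ = 0 := by rw [this, zero_div]
    have h2 : ((ψ (∑ j ∈ Finset.range (d + 1), (χ.coeff j / χ.coeff 0) * u (n + j)) : K) : ℂ) = w n := by
      rw [map_sum, hw]
      push_cast
      refine Finset.sum_congr rfl fun j _ => ?_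
      rw [hψmul _ _ (huK _ (by omega))]
    rw [← h2, h1, map_zero]
    rfl
  have hw0 : w 0 = 0 := by
    have h1 : ∑ j ∈ Finset.range (d + 1), χ.coeff j * w j = 0 := by
      calc ∑ j ∈ Finset.range (d + 1), χ.coeff j * w j
          = ∑ j ∈ Finset.range (d + 1), ∑ i ∈ Finset.range (d + 1), P i * (χ.coeff j * u (i + j)) := by
            refine Finset.sum_congr rfl fun j _ => ?_
            rw [hw, Finset.mul_sum]
            refine Finset.sum_congr rfl fun i _ => ?_
            rw [add_comm i j]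
            ring
        _ = ∑ i ∈ Finset.range (d + 1), P i * ∑ j ∈ Finset.range (d + 1), χ.coeff j * u (i + j) := by
            rw [Finset.sum_comm]
            refine Finset.sum_congr rfl fun i _ => ?_
            rw [Finset.mul_sum]
        _ = 0 := by
            refine Finset.sum_eq_zero fun i _ => ?_
            rw [hrec i, mul_zero]
    rw [Finset.sum_range_succ'] at h1
    have h2 : ∑ k ∈ Finset.range d, χ.coeff (k + 1) * w (k + 1) = 0 :=
      Finset.sum_eq_zero fun k _ => by rw [hw1 _ (by omega), mul_zero]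
    rw [h2, zero_add] at h1
    exact (mul_eq_zero.1 h1).resolve_left hχ0
  have hu0 : u 0 ∈ K := by
    have h1 : w 0 = ∑ j ∈ Finset.range d, P (j + 1) * u (j + 1) + u 0 := by
      rw [hw]
      simp only [zero_add]
      rw [Finset.sum_range_succ', hP0, one_mul]
    rw [hw0] at h1
    have h2 : u 0 = - ∑ j ∈ Finset.range d, P (j + 1) * u (j + 1) := by
      linear_combination -h1
    rw [h2]
    refine neg_mem (sum_mem fun j _ => mul_mem (hPK _) (huK _ (by omega)))
  have h3 : u 0 = ∑ k, c k * (Module.finrank ℂ (Q k) : ℂ) := by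
    rw [hu]
    simp only [pow_zero, LinearMap.trace_one]
  rw [← h3]
  exact hu0

/-- The trace of a matrix with `A ^ (n + 1) = A` is a sum of roots of unity. -/
theorem trace_mem (K : Subfield ℂ) (hK : ∀ (z : ℂ) (n : ℕ), 0 < n → z ^ n = 1 → z ∈ K)
    {ι : Type*} [Fintype ι] [DecidableEq ι] (A : Matrix ι ι ℂ) (n : ℕ) (hn : 0 < n)
    (h : A ^ (n + 1) = A) : A.trace ∈ K := by
  rw [Matrix.trace_eq_sum_roots_charpoly]
  refine multiset_sum_mem _ fun z hz => ?_
  have hz' : Polynomial.eval z A.charpoly = 0 := by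
    have := Polynomial.isRoot_of_mem_roots hz
    exact this
  rw [Matrix.eval_charpoly] at hz'
  obtain ⟨v, hv, hv2⟩ := Matrix.exists_mulVec_eq_zero_iff.2 hz'
  have hAv : A *ᵥ v = z • v := by
    rw [Matrix.sub_mulVec, sub_eq_zero] at hv2
    rw [← hv2]
    simp
  have hpow : ∀ m : ℕ, (A ^ m) *ᵥ v = z ^ m • v := by
    intro m
    induction m with
    | zero => simp
    | succ m ih =>
      rw [pow_succ, ← Matrix.mulVec_mulVec, hAv, Matrix.mulVec_smul, ih, smul_smul, pow_succ, mul_comm]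
  have h1 : z ^ (n + 1) = z := by
    have h2 := hpow (n + 1)
    rw [h, hAv] at h2
    have h3 : (z - z ^ (n + 1)) • v = 0 := by
      rw [sub_smul, h2, sub_self]
    rcases smul_eq_zero.1 h3 with h4 | h4
    · exact (sub_eq_zero.1 h4).symm
    · exact absurd h4 hv
  by_cases hz0 : z = 0
  · rw [hz0]; exact zero_mem _
  · refine hK z n hn ?_
    rw [pow_succ] at h1
    exact mul_right_cancel₀ hz0 (by rw [h1, one_mul])

/-- Elements of the maximal cyclotomic field lie in a cyclotomic field. -/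
theorem in_cyc {x : ℂ} (hx : x ∈ Subfield.closure {z : ℂ | ∃ n : ℕ, 0 < n ∧ z ^ n = 1}) :
    ∃ (N : ℕ) (ζ : ℂ), 0 < N ∧ IsPrimitiveRoot ζ N ∧ x ∈ IntermediateField.adjoin ℚ {ζ} := by
  have hprim : ∀ N : ℕ, 0 < N → IsPrimitiveRoot (Complex.exp (2 * Real.pi * Complex.I / N)) N :=
    fun N hN => Complex.isPrimitiveRoot_exp N hN.ne'
  have hle : ∀ N M : ℕ, 0 < N → 0 < M → ∀ y : ℂ, y ^ N = 1 →
      y ∈ IntermediateField.adjoin ℚ {Complex.exp (2 * Real.pi * Complex.I / (N * M : ℕ))} := by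
    intro N M hN hM y hy
    have h1 := hprim (N * M) (Nat.mul_pos hN hM)
    have hy1 : y ^ (N * M) = 1 := by rw [pow_mul, hy, one_pow]
    have hne : NeZero (N * M) := ⟨(Nat.mul_pos hN hM).ne'⟩
    obtain ⟨i, _, hi⟩ := h1.eq_pow_of_pow_eq_one hy1
    rw [← hi]
    exact pow_mem (IntermediateField.mem_adjoin_simple_self ℚ _) i
  have key : ∃ N : ℕ, 0 < N ∧ x ∈ IntermediateField.adjoin ℚ {Complex.exp (2 * Real.pi * Complex.I / N)} := by
    have hle2 : ∀ N M : ℕ, 0 < N → 0 < M → 
      IntermediateField.adjoin ℚ {Complex.exp (2 * Real.pi * Complex.I / N)} ≤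
      IntermediateField.adjoin ℚ {Complex.exp (2 * Real.pi * Complex.I / (N * M : ℕ))} := by
      intro N M hN hM
      rw [IntermediateField.adjoin_simple_le_iff]
      exact hle N M hN hM _ (hprim N hN).pow_eq_one
    have hle3 : ∀ N M : ℕ, 0 < N → 0 < M → 
      IntermediateField.adjoin ℚ {Complex.exp (2 * Real.pi * Complex.I / M)} ≤
      IntermediateField.adjoin ℚ {Complex.exp (2 * Real.pi * Complex.I / (N * M : ℕ))} := by
      intro N M hN hM
      rw [mul_comm N M]
      exact hle2 M N hM hN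
    induction hx using Subfield.closure_induction with
    | mem y hy =>
      obtain ⟨n, hn, hy⟩ := hy
      refine ⟨n * 1, by omega, hle n 1 hn one_pos y hy⟩
    | one => exact ⟨1, one_pos, one_mem _⟩
    | add a b _ _ iha ihb =>
      obtain ⟨N, hN, ha⟩ := iha
      obtain ⟨M, hM, hb⟩ := ihb
      exact ⟨N * M, Nat.mul_pos hN hM, add_mem (hle2 N M hN hM ha) (hle3 N M hN hM hb)⟩
    | neg a _ iha =>
      obtain ⟨N, hN, ha⟩ := iha
      exact ⟨N, hN, neg_mem ha⟩
    | inv a _ iha =>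
      obtain ⟨N, hN, ha⟩ := iha
      exact ⟨N, hN, inv_mem ha⟩
    | mul a b _ _ iha ihb =>
      obtain ⟨N, hN, ha⟩ := iha
      obtain ⟨M, hM, hb⟩ := ihb
      exact ⟨N * M, Nat.mul_pos hN hM, mul_mem (hle2 N M hN hM ha) (hle3 N M hN hM hb)⟩
  obtain ⟨N, hN, hx⟩ := key
  exact ⟨N, _, hN, hprim N hN, hx⟩

end Pool.Agent.Helper781.Fusion
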