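import Pool.Agent.Helper781.Fusion.Decomp
import Pool.Agent.Helper781.Fusion.PF
import Pool.Agent.Helper781.Fusion.Recur

set_option autoImplicit false
set_option linter.unusedSectionVars false

open CategoryTheory CategoryTheory.Limits MonoidalCategory

namespace Pool.Agent.Helper781.Fusion

universe v u

/-! ### Idempotents and rotation -/

lemma idem_of_mul {X κ : Type*} [Fintype X] [DecidableEq X] [Fintype κ]
    (T : κ → Matrix X X ℂ) (N : κ → κ → κ → ℕ)
    (hT : ∀ i j, T j * T i = ∑ k, N k i j • T k) (w d : κ → ℝ) (f : ℝ)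
    (hw : ∀ i k, ∑ j, (N k i j : ℝ) * w j = d i * w k) (hf : f = ∑ i, w i * d i) (hf0 : f ≠ 0) :
    (∑ i, ((w i / f : ℝ) : ℂ) • T i) * (∑ i, ((w i / f : ℝ) : ℂ) • T i) =
      ∑ i, ((w i / f : ℝ) : ℂ) • T i := by
  rw [Finset.sum_mul_sum]
  simp_rw [smul_mul_smul_comm, hT, Finset.smul_sum]
  have h1 : ∀ k, ∑ j, ∑ i, (((w j / f : ℝ) : ℂ) * ((w i / f : ℝ) : ℂ)) • (N k i j • T k) =
      ((w k / f : ℝ) : ℂ) • T k := by
    intro k
    have h2 : ∀ j i, (((w j / f : ℝ) : ℂ) * ((w i / f : ℝ) : ℂ)) • (N k i j • T k) =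
        (((w j / f) * (w i / f) * N k i j : ℝ) : ℂ) • T k := by
      intro j i
      rw [← Nat.cast_smul_eq_nsmul ℂ, smul_smul]
      push_cast; rfl
    simp_rw [h2, ← Finset.sum_smul]
    congr 1
    rw [Finset.sum_comm]
    simp_rw [← Complex.ofReal_sum]
    congr 1
    have h3 : ∀ i, ∑ j, w j / f * (w i / f) * (N k i j : ℝ) = (w i * d i) * (w k / f ^ 2) := by
      intro i
      have h4 : ∑ j, w j / f * (w i / f) * (N k i j : ℝ) =
          (w i / f ^ 2) * ∑ j, (N k i j : ℝ) * w j := by
        rw [Finset.mul_sum]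
        refine Finset.sum_congr rfl fun j _ => ?_
        field_simp
      rw [h4, hw]; field_simp
    simp_rw [h3]
    rw [← Finset.sum_mul, ← hf]
    field_simp
  rw [← Finset.sum_congr rfl fun k _ => h1 k, Finset.sum_congr rfl fun j _ => Finset.sum_comm]
  exact Finset.sum_comm

lemma castSucc_add_one' {n : ℕ} (i : Fin n) : i.castSucc + 1 = i.succ := by
  cases n with
  | zero => exact i.elim0
  | succ n =>
    apply Fin.ext
    rw [Fin.val_add_one_of_lt (Fin.castSucc_lt_last i)]
    simp

lemma rot_eq {E : Type*} {n : ℕ} (x : Fin (n + 1) → E) (a : Fin (n + 1)) :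
    rot x (a + 1) = x a := by
  refine Fin.lastCases ?_ (fun i => ?_) a
  · rw [Fin.last_add_one]
    simp [rot]
  · rw [castSucc_add_one']
    simp [rot]

/-- Rotation as an equivalence. -/
def rotE (E : Type*) (n : ℕ) : (Fin (n + 1) → E) ≃ (Fin (n + 1) → E) where
  toFun := rot
  invFun x := fun a => x (a + 1)
  left_inv x := by funext a; exact rot_eq x a
  right_inv x := by
    funext a
    have h := rot_eq (fun a => x (a + 1)) (a - 1)
    simpa using h

lemma rot_iter {E : Type*} {n : ℕ} (k : ℕ) (x : Fin (n + 1) → E) (a : Fin (n + 1)) :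
    (rot^[k] x) (a + k • (1 : Fin (n + 1))) = x a := by
  induction k generalizing x with
  | zero => simp
  | succ k ih =>
    rw [Function.iterate_succ_apply', succ_nsmul, ← add_assoc, rot_eq, ih]

lemma rot_iter_self {E : Type*} {n : ℕ} (x : Fin (n + 1) → E) : rot^[n + 1] x = x := by
  funext a
  have h := rot_iter (n + 1) x a
  have h2 : (n + 1) • (1 : Fin (n + 1)) = 0 := by
    have := card_nsmul_eq_zero (G := Fin (n + 1)) (x := 1)
    rwa [Fintype.card_fin] at this
  rwa [h2, add_zero] at h

lemma rot_pow {E : Type*} [Fintype E] [DecidableEq E] {n : ℕ}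
    (e : Matrix (Fin (n + 1) → E) (Fin (n + 1) → E) ℂ) (hrot : ∀ y x, e (rot y) (rot x) = e y x)
    (he : e * e = e) : (e.submatrix rot id) ^ (n + 1 + 1) = e.submatrix rot id := by
  set R : Matrix (Fin (n + 1) → E) (Fin (n + 1) → E) ℂ := (1 : Matrix _ _ ℂ).submatrix rot id with hR
  have hmul : ∀ M : Matrix (Fin (n + 1) → E) (Fin (n + 1) → E) ℂ, R * M = M.submatrix rot id := by
    intro M
    ext y x
    rw [hR, Matrix.mul_apply]
    simp [Matrix.one_apply]
  have hmul' : ∀ M : Matrix (Fin (n + 1) → E) (Fin (n + 1) → E) ℂ,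
      M * R = M.submatrix id (rotE E n).symm := by
    intro M
    ext y x
    rw [hR, Matrix.mul_apply]
    simp only [Matrix.submatrix_apply, id_eq, Matrix.one_apply, mul_ite, mul_one, mul_zero]
    have hxx : rot ((rotE E n).symm x) = x := (rotE E n).apply_symm_apply x
    rw [Finset.sum_eq_single ((rotE E n).symm x)]
    · rw [if_pos hxx]
    · intro z _ hz
      rw [if_neg]
      intro h
      apply hz
      rw [← h]
      exact ((rotE E n).symm_apply_apply z).symm
    · intro h; exact absurd (Finset.mem_univ _) h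
  have hcomm : Commute R e := by
    unfold Commute SemiconjBy
    rw [hmul, hmul']
    ext y x
    simp only [Matrix.submatrix_apply, id_eq]
    have := hrot y ((rotE E n).symm x)
    rw [← this]
    congr 1
    exact ((rotE E n).apply_symm_apply x).symm
  have hpow : ∀ k, R ^ k = (1 : Matrix _ _ ℂ).submatrix (rot^[k]) id := by
    intro k
    induction k with
    | zero => simp
    | succ k ih =>
      rw [pow_succ', ih, hmul]
      ext y x
      rw [Matrix.submatrix_apply, Matrix.submatrix_apply, Matrix.submatrix_apply,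
        Function.iterate_succ_apply]
      rfl
  have hR1 : R ^ (n + 1) = 1 := by
    rw [hpow]
    ext y x
    rw [Matrix.submatrix_apply, rot_iter_self]
    rfl
  have hid : ∀ k, e ^ (k + 1) = e := by
    intro k
    induction k with
    | zero => simp
    | succ k ih => rw [pow_succ, ih, he]
  rw [← hmul e, hcomm.mul_pow, hid, pow_succ, hR1, one_mul]

end Pool.Agent.Helper781.Fusion
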