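import Pool.Agent.Helper781.Fusion.Rot

set_option autoImplicit false
set_option linter.unusedSectionVars false

open CategoryTheory CategoryTheory.Limits MonoidalCategory

namespace Pool.Agent.Helper781.Fusion

universe v u

section monoidal

variable {C : Type u} [Category.{v} C] [Abelian C] [Linear ℂ C] [MonoidalCategory C]
  [MonoidalPreadditive C] [MonoidalLinear ℂ C]

/-- The associator as a commutation isomorphism. -/
def cU (V U : C) : tensorLeft V ⋙ tensorRight U ≅ tensorRight U ⋙ tensorLeft V :=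
  NatIso.ofComponents (fun X => α_ V X U) (by
    intro X Y f
    simp)

lemma cU_hom_app (V U X : C) : (cU V U).hom.app X = (α_ V X U).hom := rfl

variable {r : ℕ} {S : Fin r → C} {P V : C} {B : BaseData P (Fin r)} {E : Type} [Fintype E]
  [DecidableEq E] (p : PathData B (tensorLeft V) E)

/-- Transfer matrix of an object. -/
noncomputable def TU (U : C) (n : ℕ) : Matrix (Fin (n + 1) → E) (Fin (n + 1) → E) ℂ :=
  p.T (tensorRight U) (cU V U) n

lemma TU_mul [∀ X Y : C, FiniteDimensional ℂ (X ⟶ Y)] (Y Y' : C) (n : ℕ) :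
    TU p Y' n * TU p Y n = TU p (Y ⊗ Y') n := by
  unfold TU
  rw [p.T_mul]
  refine p.T_iso _ _ _ _ (NatIso.ofComponents (fun X => α_ X Y Y') (by
    intro X Z f
    simp)) ?_ n
  rw [PathData.compIso_hom_app]
  simp only [cU_hom_app, NatIso.ofComponents_hom_app]
  change ((α_ V P Y).hom ▷ Y' ≫ (α_ V (P ⊗ Y) Y').hom) ≫ V ◁ (α_ P Y Y').hom =
    (α_ (V ⊗ P) Y Y').hom ≫ (α_ V P (Y ⊗ Y')).hom
  simp

lemma TU_sum [∀ X Y : C, FiniteDimensional ℂ (X ⟶ Y)] (hS : IsSimpleList S) {U : C}
    (d : Dec S U) (n : ℕ) : TU p U n = ∑ i, Module.finrank ℂ (S i ⟶ U) • TU p (S i) n := by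
  have h := p.T_sum (tensorRight U) (cU V U) (fun b : Fin d.n => tensorRight (S (d.idx b)))
    (fun b => cU V (S (d.idx b))) (fun b => { app := fun X => X ◁ d.inc b
                                              naturality := by intro X Y f; simp [whisker_exchange] })
    (fun b => { app := fun X => X ◁ d.prj b
                naturality := by intro X Y f; simp [whisker_exchange] }) ?_ ?_ ?_ n
  · rw [← sum_dec hS d (fun i => TU p (S i) n)]
    exact h
  · intro b
    simp only [cU_hom_app]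
    change (α_ V P (S (d.idx b))).hom ≫ V ◁ (P ◁ d.inc b) = (V ⊗ P) ◁ d.inc b ≫ (α_ V P U).hom
    simp
  · change ∑ b, P ◁ d.prj b ≫ P ◁ d.inc b = 𝟙 (P ⊗ U)
    simp_rw [← MonoidalCategory.whiskerLeft_comp]
    rw [← whiskerLeft_sum, d.sum, MonoidalCategory.whiskerLeft_id]
  · intro b
    change P ◁ d.inc b ≫ P ◁ d.prj b = 𝟙 (P ⊗ S (d.idx b))
    rw [← MonoidalCategory.whiskerLeft_comp, d.same, MonoidalCategory.whiskerLeft_id]

/-- The transfer matrices represent the opposite fusion ring. -/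
lemma TU_fusion [∀ X Y : C, FiniteDimensional ℂ (X ⟶ Y)] (hS : IsSimpleList S)
    (dec : ∀ Z, Dec S Z) (n : ℕ) (i j : Fin r) :
    TU p (S j) n * TU p (S i) n =
      ∑ k, Module.finrank ℂ (S k ⟶ S i ⊗ S j) • TU p (S k) n := by
  rw [TU_mul, TU_sum p hS (dec (S i ⊗ S j))]

end monoidal

end Pool.Agent.Helper781.Fusion
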