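import Pool.Agent.Helper781.Fusion.Words

set_option autoImplicit false
set_option linter.unusedSectionVars false

open CategoryTheory CategoryTheory.Limits

namespace Pool.Agent.Helper781.Fusion

universe v u

section cat

variable {C : Type u} [Category.{v} C] [Preadditive C] [Linear ℂ C]

/-- A generating object with split commutative endomorphism algebra. -/
structure BaseData (P : C) (r : Type) [Fintype r] [DecidableEq r] where
  q : r → (P ⟶ P)
  coef : r → ((P ⟶ P) →ₗ[ℂ] ℂ)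
  q_mul : ∀ i j, q i ≫ q j = if i = j then q i else 0
  q_sum : ∑ i, q i = 𝟙 P
  coef_q : ∀ i, coef i (q i) = 1
  expand : ∀ a : P ⟶ P, a = ∑ i, coef i a • q i
  num : C → ℕ
  z : ∀ Z : C, Fin (num Z) → (P ⟶ Z)
  z' : ∀ Z : C, Fin (num Z) → (Z ⟶ P)
  zsum : ∀ Z, ∑ b, z' Z b ≫ z Z b = 𝟙 Z

variable {P : C} {r : Type} [Fintype r] [DecidableEq r] (B : BaseData P r)

namespace BaseData

lemma q_comp (a : P ⟶ P) (i : r) : B.q i ≫ a = B.coef i a • B.q i := by
  conv_lhs => rw [B.expand a]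
  rw [Preadditive.comp_sum, Finset.sum_eq_single i]
  · rw [Linear.comp_smul, B.q_mul, if_pos rfl]
  · intro j _ hj
    rw [Linear.comp_smul, B.q_mul, if_neg (Ne.symm hj), smul_zero]
  · intro h; exact absurd (Finset.mem_univ i) h

lemma comp_q (a : P ⟶ P) (i : r) : a ≫ B.q i = B.coef i a • B.q i := by
  conv_lhs => rw [B.expand a]
  rw [Preadditive.sum_comp, Finset.sum_eq_single i]
  · rw [Linear.smul_comp, B.q_mul, if_pos rfl]
  · intro j _ hj
    rw [Linear.smul_comp, B.q_mul, if_neg hj, smul_zero]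
  · intro h; exact absurd (Finset.mem_univ i) h

end BaseData

/-- Path data for an endofunctor. -/
structure PathData (F : C ⥤ C) (E : Type) [Fintype E] [DecidableEq E] where
  s : E → r
  t : E → r
  m : E → (P ⟶ F.obj P)
  m' : E → (F.obj P ⟶ P)
  sum : ∑ e, m' e ≫ m e = 𝟙 (F.obj P)
  orth : ∀ e e', m e ≫ m' e' = if e = e' then B.q (s e) else 0
  q_m : ∀ e, B.q (s e) ≫ m e = m e
  m_q : ∀ e, m e ≫ F.map (B.q (t e)) = m e

namespace PathData

variable {B} {F : C ⥤ C} [F.Additive] [F.Linear ℂ] {E : Type} [Fintype E] [DecidableEq E]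
  (p : PathData B F E)

lemma end_m (a : P ⟶ P) (e : E) : a ≫ p.m e = B.coef (p.s e) a • p.m e := by
  rw [← p.q_m e, ← Category.assoc, B.comp_q, Linear.smul_comp]

/-- Component of a morphism `P ⟶ F Z` along the edge `e`. -/
noncomputable def D (e : E) (Z : C) : (P ⟶ F.obj Z) →ₗ[ℂ] (P ⟶ Z) :=
  ∑ b, ((B.coef (p.s e)).comp (Linear.rightComp ℂ P (F.map (B.z' Z b) ≫ p.m' e))).smulRight
    (B.q (p.t e) ≫ B.z Z b)

lemma D_apply (e : E) (Z : C) (h : P ⟶ F.obj Z) :
    p.D e Z h = ∑ b, B.coef (p.s e) (h ≫ F.map (B.z' Z b) ≫ p.m' e) •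
      (B.q (p.t e) ≫ B.z Z b) := by
  simp [D]

lemma D_expand (Z : C) (h : P ⟶ F.obj Z) : h = ∑ e, p.m e ≫ F.map (p.D e Z h) := by
  have h1 : ∀ e, p.m e ≫ F.map (p.D e Z h) =
      ∑ b, h ≫ F.map (B.z' Z b) ≫ p.m' e ≫ p.m e ≫ F.map (B.z Z b) := by
    intro e
    rw [D_apply, F.map_sum, Preadditive.comp_sum]
    refine Finset.sum_congr rfl fun b _ => ?_
    rw [F.map_smul, Linear.comp_smul, F.map_comp, ← Category.assoc (p.m e), p.m_q e,
      ← Linear.smul_comp, ← p.end_m]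
    simp only [Category.assoc]
  simp_rw [h1]
  rw [Finset.sum_comm]
  have h2 : ∀ b, ∑ e, h ≫ F.map (B.z' Z b) ≫ p.m' e ≫ p.m e ≫ F.map (B.z Z b) =
      h ≫ F.map (B.z' Z b ≫ B.z Z b) := by
    intro b
    rw [← Preadditive.comp_sum, ← Preadditive.comp_sum]
    have : ∑ e, p.m' e ≫ p.m e ≫ F.map (B.z Z b) = F.map (B.z Z b) := by
      simp_rw [← Category.assoc]
      rw [← Preadditive.sum_comp, p.sum, Category.id_comp]
    rw [this, F.map_comp]
  simp_rw [h2]
  rw [← Preadditive.comp_sum, ← F.map_sum, B.zsum, F.map_id, Category.comp_id]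

lemma D_unique (Z : C) (h : P ⟶ F.obj Z) (d : E → (P ⟶ Z)) (hd : ∀ e, B.q (p.t e) ≫ d e = d e)
    (hsum : h = ∑ e, p.m e ≫ F.map (d e)) (e : E) : p.D e Z h = d e := by
  have hk : ∀ e b, d e ≫ B.z' Z b = B.coef (p.t e) (d e ≫ B.z' Z b) • B.q (p.t e) := by
    intro e b
    rw [← B.q_comp, ← Category.assoc, hd]
  have h1 : ∀ b, h ≫ F.map (B.z' Z b) ≫ p.m' e =
      B.coef (p.t e) (d e ≫ B.z' Z b) • B.q (p.s e) := by
    intro b
    have h3 : ∀ e', (p.m e' ≫ F.map (d e')) ≫ F.map (B.z' Z b) ≫ p.m' e =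
        B.coef (p.t e') (d e' ≫ B.z' Z b) • (p.m e' ≫ p.m' e) := by
      intro e'
      rw [Category.assoc, ← Category.assoc (F.map (d e')), ← F.map_comp]
      conv_lhs => rw [hk e' b]
      rw [F.map_smul, Linear.smul_comp, Linear.comp_smul, ← Category.assoc (p.m e'), p.m_q]
    rw [hsum, Preadditive.sum_comp]
    simp_rw [h3, p.orth]
    rw [Finset.sum_eq_single e]
    · rw [if_pos rfl]
    · intro e' _ he'
      rw [if_neg he', smul_zero]
    · intro h; exact absurd (Finset.mem_univ e) h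
  rw [D_apply]
  have h2 : ∀ b, B.coef (p.s e) (h ≫ F.map (B.z' Z b) ≫ p.m' e) •
      (B.q (p.t e) ≫ B.z Z b) = d e ≫ B.z' Z b ≫ B.z Z b := by
    intro b
    rw [h1, LinearMap.map_smul, B.coef_q, smul_eq_mul, mul_one, ← Linear.smul_comp, ← hk,
      Category.assoc]
  simp_rw [h2]
  rw [← Preadditive.comp_sum, B.zsum, Category.comp_id]

lemma q_D (e : E) (Z : C) (h : P ⟶ F.obj Z) : B.q (p.t e) ≫ p.D e Z h = p.D e Z h := by
  rw [D_apply, Preadditive.comp_sum]
  refine Finset.sum_congr rfl fun b _ => ?_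
  rw [Linear.comp_smul]
  congr 1
  rw [← Category.assoc, B.q_mul, if_pos rfl]

lemma q_D' (i : r) (e : E) (Z : C) (h : P ⟶ F.obj Z) :
    B.q i ≫ p.D e Z h = if i = p.t e then p.D e Z h else 0 := by
  rw [← p.q_D e Z h, ← Category.assoc, B.q_mul]
  split_ifs with hi
  · rw [hi]
  · rw [Limits.zero_comp]

lemma D_map (e : E) {Z Z' : C} (h : P ⟶ F.obj Z) (g : Z ⟶ Z') :
    p.D e Z' (h ≫ F.map g) = p.D e Z h ≫ g := by
  refine p.D_unique Z' _ (fun e => p.D e Z h ≫ g) (fun e => ?_) ?_ e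
  · rw [← Category.assoc, p.q_D]
  · conv_lhs => rw [p.D_expand Z h]
    rw [Preadditive.sum_comp]
    refine Finset.sum_congr rfl fun e _ => ?_
    rw [F.map_comp, Category.assoc]

lemma D_comp (e : E) (Z : C) (h : P ⟶ F.obj Z) (a : P ⟶ P) :
    p.D e Z (a ≫ h) = B.coef (p.s e) a • p.D e Z h := by
  refine p.D_unique Z _ (fun e => B.coef (p.s e) a • p.D e Z h) (fun e => ?_) ?_ e
  · rw [Linear.comp_smul, p.q_D]
  · conv_lhs => rw [p.D_expand Z h]
    rw [Preadditive.comp_sum]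
    refine Finset.sum_congr rfl fun e _ => ?_
    rw [← Category.assoc, p.end_m, F.map_smul, Linear.comp_smul, Linear.smul_comp]

/-! ### Transfer operators -/

section transfer

variable (G : C ⥤ C) [G.Additive] [G.Linear ℂ] (c : F ⋙ G ≅ G ⋙ F)

/-- First half of the transfer operator. -/
noncomputable def A (e : E) : (P ⟶ G.obj P) →ₗ[ℂ] (P ⟶ F.obj (G.obj P)) :=
  Linear.rightComp ℂ P (G.map (p.m e) ≫ c.hom.app P)

lemma A_apply (e : E) (ν : P ⟶ G.obj P) :
    p.A G c e ν = ν ≫ G.map (p.m e) ≫ c.hom.app P := rfl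

/-- The transfer operator of a pair of edges. -/
noncomputable def ell (e e' : E) : Module.End ℂ (P ⟶ G.obj P) :=
  p.D e' (G.obj P) ∘ₗ p.A G c e

lemma ell_apply (e e' : E) (ν : P ⟶ G.obj P) :
    p.ell G c e e' ν = p.D e' (G.obj P) (ν ≫ G.map (p.m e) ≫ c.hom.app P) := rfl

lemma ell_sum (e : E) (ν : P ⟶ G.obj P) :
    ν ≫ G.map (p.m e) ≫ c.hom.app P = ∑ e', p.m e' ≫ F.map (p.ell G c e e' ν) :=
  p.D_expand _ _

/-- The transfer matrix on words of length `n + 1`. -/
noncomputable def T (n : ℕ) : Matrix (Fin (n + 1) → E) (Fin (n + 1) → E) ℂ :=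
  fun x' x => LinearMap.trace ℂ (P ⟶ G.obj P) (List.ofFn fun a => p.ell G c (x a) (x' a)).prod

lemma T_rot [∀ X Y : C, FiniteDimensional ℂ (X ⟶ Y)] (n : ℕ) (x' x : Fin (n + 1) → E) :
    p.T G c n (rot x') (rot x) = p.T G c n x' x := by
  unfold T
  rw [← trace_rot n (fun a => p.ell G c (x a) (x' a))]
  congr 2
  congr 1
  funext a
  refine Fin.cases ?_ (fun i => ?_) a
  · simp [rot]
  · simp [rot]

/-- Naturality of the transfer operators. -/
lemma ell_natural (G' : C ⥤ C) [G'.Additive] [G'.Linear ℂ] (c' : F ⋙ G' ≅ G' ⋙ F)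
    (η : G ⟶ G') (hη : c.hom.app P ≫ F.map (η.app P) = η.app (F.obj P) ≫ c'.hom.app P)
    (e e' : E) :
    (Linear.rightComp ℂ P (η.app P)) ∘ₗ p.ell G c e e' =
      p.ell G' c' e e' ∘ₗ (Linear.rightComp ℂ P (η.app P)) := by
  ext ν
  simp only [LinearMap.comp_apply, Linear.rightComp_apply, ell_apply]
  rw [← p.D_map]
  congr 1
  simp only [Category.assoc]
  rw [hη, ← Category.assoc (G.map (p.m e)), η.naturality]
  simp only [Category.assoc]

/-- Invariance under isomorphism. -/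
lemma T_iso [∀ X Y : C, FiniteDimensional ℂ (X ⟶ Y)] (G' : C ⥤ C) [G'.Additive] [G'.Linear ℂ]
    (c' : F ⋙ G' ≅ G' ⋙ F) (η : G ≅ G')
    (hη : c.hom.app P ≫ F.map (η.hom.app P) = η.hom.app (F.obj P) ≫ c'.hom.app P) (n : ℕ) :
    p.T G c n = p.T G' c' n := by
  ext x' x
  unfold T
  refine trace_word_eq n _ _ (Linear.rightComp ℂ P (η.hom.app P))
    (Linear.rightComp ℂ P (η.inv.app P)) ?_ ?_ ?_
  · ext ν; simp
  · intro a
    exact p.ell_natural G c G' c' η.hom hη _ _
  · intro a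
    ext ν; simp

/-! ### Composition -/

variable (G' : C ⥤ C) [G'.Additive] [G'.Linear ℂ] (c' : F ⋙ G' ≅ G' ⋙ F)

/-- The commutation isomorphism of a composite. -/
def compIso : F ⋙ (G ⋙ G') ≅ (G ⋙ G') ⋙ F :=
  NatIso.ofComponents (fun X => G'.mapIso (c.app X) ≪≫ c'.app (G.obj X)) (by
    intro X Y f
    have h1 := c.hom.naturality f
    have h2 := c'.hom.naturality (G.map f)
    simp only [Functor.comp_map, Functor.comp_obj] at h1 h2
    simp only [Functor.comp_map, Functor.comp_obj, Iso.trans_hom, Functor.mapIso_hom,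
      Iso.app_hom, Category.assoc]
    rw [← h2, ← Category.assoc, ← G'.map_comp, h1, G'.map_comp, Category.assoc])

lemma compIso_hom_app (X : C) :
    (compIso G c G' c').hom.app X = G'.map (c.hom.app X) ≫ c'.hom.app (G.obj X) := rfl

open TensorProduct

/-- Composition of multiplicity spaces. -/
noncomputable def kap : (P ⟶ G.obj P) ⊗[ℂ] (P ⟶ G'.obj P) →ₗ[ℂ] (P ⟶ (G ⋙ G').obj P) :=
  TensorProduct.lift (LinearMap.mk₂ ℂ (fun (ν : P ⟶ G.obj P) (μ : P ⟶ G'.obj P) =>
    μ ≫ G'.map ν) (by intros; simp) (by intros; simp [Functor.map_smul]) (by intros; simp)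
    (by intros; simp))

lemma kap_tmul (ν : P ⟶ G.obj P) (μ : P ⟶ G'.obj P) :
    kap G G' (ν ⊗ₜ[ℂ] μ) = μ ≫ G'.map ν := by
  simp [kap]

/-- A section of `kap`. -/
noncomputable def sig (B : BaseData P r) :
    (P ⟶ (G ⋙ G').obj P) →ₗ[ℂ] (P ⟶ G.obj P) ⊗[ℂ] (P ⟶ G'.obj P) :=
  ∑ b, (TensorProduct.mk ℂ (P ⟶ G.obj P) (P ⟶ G'.obj P) (B.z (G.obj P) b)) ∘ₗ
    (Linear.rightComp ℂ P (G'.map (B.z' (G.obj P) b)))

lemma sig_apply (B : BaseData P r) (h : P ⟶ G'.obj (G.obj P)) :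
    sig G G' B h = ∑ b, (B.z (G.obj P) b) ⊗ₜ[ℂ] (h ≫ G'.map (B.z' (G.obj P) b)) := by
  simp [sig]

/-- Composite transfer operator. -/
noncomputable def Lam (e e'' : E) : Module.End ℂ ((P ⟶ G.obj P) ⊗[ℂ] (P ⟶ G'.obj P)) :=
  ∑ e', TensorProduct.map (p.ell G c e e') (p.ell G' c' e' e'')

lemma kap_sig : kap G G' ∘ₗ sig G G' B = LinearMap.id := by
  ext h
  rw [LinearMap.comp_apply, LinearMap.id_apply]
  have h1 : sig G G' B h = ∑ b, (B.z (G.obj P) b) ⊗ₜ[ℂ] (h ≫ G'.map (B.z' (G.obj P) b)) :=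
    sig_apply G G' B h
  rw [h1, map_sum]
  simp_rw [kap_tmul, Category.assoc, ← G'.map_comp]
  rw [← Preadditive.comp_sum, ← G'.map_sum, B.zsum, G'.map_id]
  exact Category.comp_id _

lemma kap_Lam (e e'' : E) : kap G G' ∘ₗ p.Lam G c G' c' e e'' =
    p.ell (G ⋙ G') (compIso G c G' c') e e'' ∘ₗ kap G G' := by
  apply TensorProduct.ext'
  intro ν μ
  rw [LinearMap.comp_apply, LinearMap.comp_apply, Lam, LinearMap.sum_apply, map_sum, kap_tmul]
  simp_rw [TensorProduct.map_tmul, kap_tmul]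
  symm
  rw [ell_apply]
  refine p.D_unique _ _ (fun e'' => ∑ e', p.ell G' c' e' e'' μ ≫ G'.map (p.ell G c e e' ν))
    (fun e'' => ?_) ?_ e''
  · rw [Preadditive.comp_sum]
    refine Finset.sum_congr rfl fun e' _ => ?_
    rw [← Category.assoc, ell_apply, p.q_D]
  · rw [compIso_hom_app]
    have h1 : (μ ≫ G'.map ν) ≫ (G ⋙ G').map (p.m e) ≫ G'.map (c.hom.app P) ≫
        c'.hom.app (G.obj P) = μ ≫ G'.map (ν ≫ G.map (p.m e) ≫ c.hom.app P) ≫
        c'.hom.app (G.obj P) := by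
      simp only [Functor.comp_map, Functor.map_comp, Category.assoc]
    rw [h1, p.ell_sum G c e ν, G'.map_sum, Preadditive.sum_comp, Preadditive.comp_sum]
    simp_rw [F.map_sum, Preadditive.comp_sum]
    rw [Finset.sum_comm]
    refine Finset.sum_congr rfl fun e' _ => ?_
    rw [G'.map_comp, Category.assoc]
    have h2 := c'.hom.naturality (p.ell G c e e' ν)
    simp only [Functor.comp_map] at h2
    rw [h2, ← Category.assoc (G'.map (p.m e')), ← Category.assoc μ, p.ell_sum G' c' e' μ,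
      Preadditive.sum_comp]
    refine Finset.sum_congr rfl fun e'' _ => ?_
    rw [Category.assoc, ← F.map_comp]

lemma ell_end (e e' : E) (a : P ⟶ P) (ν : P ⟶ G.obj P) :
    p.ell G c e e' (a ≫ ν) = B.coef (p.s e') a • p.ell G c e e' ν := by
  rw [ell_apply, ell_apply, Category.assoc, p.D_comp]

lemma ell_end' (e e' : E) (a : P ⟶ P) (ν : P ⟶ G.obj P) :
    p.ell G c e e' (ν ≫ G.map a) = B.coef (p.s e) a • p.ell G c e e' ν := by
  rw [ell_apply, ell_apply, ← LinearMap.map_smul]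
  congr 1
  rw [Category.assoc, ← Category.assoc (G.map a), ← G.map_comp, p.end_m, G.map_smul,
    Linear.smul_comp, Linear.comp_smul]

lemma Lam_sig_kap (e e'' : E) :
    p.Lam G c G' c' e e'' ∘ₗ (sig G G' B ∘ₗ kap G G') = p.Lam G c G' c' e e'' := by
  apply TensorProduct.ext'
  intro ν μ
  have h0 : sig G G' B (kap G G' (ν ⊗ₜ[ℂ] μ)) = ∑ b, (B.z (G.obj P) b) ⊗ₜ[ℂ]
      (μ ≫ G'.map (ν ≫ B.z' (G.obj P) b)) := by
    rw [kap_tmul]
    have := sig_apply G G' B (μ ≫ G'.map ν)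
    refine this.trans ?_
    refine Finset.sum_congr rfl fun b _ => ?_
    rw [Category.assoc, G'.map_comp]
  rw [LinearMap.comp_apply, LinearMap.comp_apply, h0, map_sum]
  have h1 : ∀ (a : P ⟶ P) (ν' : P ⟶ G.obj P), p.Lam G c G' c' e e'' (ν' ⊗ₜ[ℂ] (μ ≫ G'.map a)) =
      p.Lam G c G' c' e e'' ((a ≫ ν') ⊗ₜ[ℂ] μ) := by
    intro a ν'
    simp only [Lam, LinearMap.sum_apply, TensorProduct.map_tmul]
    refine Finset.sum_congr rfl fun e' _ => ?_
    rw [p.ell_end', p.ell_end, TensorProduct.tmul_smul, TensorProduct.smul_tmul']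
  simp_rw [h1]
  rw [← map_sum, ← TensorProduct.sum_tmul]
  congr 2
  simp_rw [Category.assoc]
  rw [← Preadditive.comp_sum, B.zsum, Category.comp_id]

/-- Transfer matrices of composites multiply. -/
theorem T_mul [∀ X Y : C, FiniteDimensional ℂ (X ⟶ Y)] (n : ℕ) :
    p.T G' c' n * p.T G c n = p.T (G ⋙ G') (compIso G c G' c') n := by
  ext x'' x
  rw [Matrix.mul_apply]
  have h1 : ∀ x' : Fin (n + 1) → E, p.T G' c' n x'' x' * p.T G c n x' x =
      LinearMap.trace ℂ ((P ⟶ G.obj P) ⊗[ℂ] (P ⟶ G'.obj P))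
        (List.ofFn fun a => (TensorProduct.map (p.ell G c (x a) (x' a))
          (p.ell G' c' (x' a) (x'' a)) : Module.End ℂ ((P ⟶ G.obj P) ⊗[ℂ] (P ⟶ G'.obj P)))).prod := by
    intro x'
    rw [prod_map, LinearMap.trace_tensorProduct', mul_comm]
    rfl
  simp_rw [h1]
  rw [← map_sum, ← prod_sum_expand (n + 1) (fun a e' => (TensorProduct.map (p.ell G c (x a) e')
          (p.ell G' c' e' (x'' a)) : Module.End ℂ ((P ⟶ G.obj P) ⊗[ℂ] (P ⟶ G'.obj P))))]
  unfold T
  exact trace_word_eq n (fun a => p.Lam G c G' c' (x a) (x'' a)) _ (kap G G') (sig G G' B)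
    (kap_sig G G') (fun a => p.kap_Lam G c G' c' _ _) (fun a => p.Lam_sig_kap G c G' c' _ _)

/-- Transfer matrices are additive. -/
theorem T_sum [∀ X Y : C, FiniteDimensional ℂ (X ⟶ Y)] {β : Type*} [Fintype β] (Gb : β → C ⥤ C)
    [∀ b, (Gb b).Additive] [∀ b, (Gb b).Linear ℂ] (cb : ∀ b, F ⋙ Gb b ≅ Gb b ⋙ F)
    (η : ∀ b, Gb b ⟶ G) (θ : ∀ b, G ⟶ Gb b)
    (hη : ∀ b, (cb b).hom.app P ≫ F.map ((η b).app P) = (η b).app (F.obj P) ≫ c.hom.app P)
    (hsum : ∑ b, (θ b).app P ≫ (η b).app P = 𝟙 (G.obj P))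
    (hid : ∀ b, (η b).app P ≫ (θ b).app P = 𝟙 ((Gb b).obj P)) (n : ℕ) :
    p.T G c n = ∑ b, p.T (Gb b) (cb b) n := by
  ext x' x
  rw [Matrix.sum_apply]
  unfold T
  set W := (List.ofFn fun a => p.ell G c (x a) (x' a)).prod with hW
  have h1 : W = ∑ b, W ∘ₗ ((Linear.rightComp ℂ P ((η b).app P)) ∘ₗ
      (Linear.rightComp ℂ P ((θ b).app P))) := by
    ext ν
    rw [LinearMap.sum_apply]
    simp only [LinearMap.comp_apply, Linear.rightComp_apply, Category.assoc]
    rw [← map_sum, ← Preadditive.comp_sum, hsum, Category.comp_id]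
  rw [h1, map_sum]
  refine Finset.sum_congr rfl fun b _ => ?_
  have h2 : W ∘ₗ (Linear.rightComp ℂ P ((η b).app P)) = (Linear.rightComp ℂ P ((η b).app P)) ∘ₗ
      (List.ofFn fun a => p.ell (Gb b) (cb b) (x a) (x' a)).prod :=
    (prod_intertwine (n + 1) _ _ (Linear.rightComp ℂ P ((η b).app P))
      (fun a => p.ell_natural (Gb b) (cb b) G c (η b) (hη b) (x a) (x' a))).symm
  rw [← LinearMap.comp_assoc, h2, LinearMap.comp_assoc, LinearMap.trace_comp_comm',
    LinearMap.comp_assoc]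
  have h3 : (Linear.rightComp ℂ P ((θ b).app P)) ∘ₗ (Linear.rightComp ℂ P ((η b).app P)) =
      (LinearMap.id : (P ⟶ (Gb b).obj P) →ₗ[ℂ] _) := by
    ext ν
    simp only [LinearMap.comp_apply, Linear.rightComp_apply, Category.assoc, LinearMap.id_apply]
    rw [hid, Category.comp_id]
  rw [h3, LinearMap.comp_id]

/-! ### The dual transfer operator -/

/-- The dual transfer operator. -/
noncomputable def Wt : Module.End ℂ (P ⟶ F.obj (G.obj P)) :=
  ∑ e, (p.A G c e ∘ₗ p.D e (G.obj P) : Module.End ℂ (P ⟶ F.obj (G.obj P)))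

lemma Wt_apply (g : P ⟶ F.obj (G.obj P)) :
    p.Wt G c g = ∑ e, p.D e (G.obj P) g ≫ G.map (p.m e) ≫ c.hom.app P := by
  simp [Wt, A_apply]

lemma trace_Wt [∀ X Y : C, FiniteDimensional ℂ (X ⟶ Y)] (n : ℕ) :
    LinearMap.trace ℂ _ ((p.Wt G c) ^ (n + 1)) = ∑ x, p.T G c n (rot x) x := by
  unfold Wt
  rw [trace_pow_expand (fun e => p.A G c e) (fun e => p.D e (G.obj P)) n]
  rfl

/-- The diagonal projection. -/
noncomputable def Pr (F : C ⥤ C) [F.Additive] [F.Linear ℂ] (G : C ⥤ C) [G.Additive] [G.Linear ℂ]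
    (B : BaseData P r) : Module.End ℂ (P ⟶ F.obj (G.obj P)) :=
  ∑ i, Linear.leftComp ℂ (F.obj (G.obj P)) (B.q i) ∘ₗ
    Linear.rightComp ℂ P (F.map (G.map (B.q i)))

lemma Pr_apply (g : P ⟶ F.obj (G.obj P)) :
    Pr F G B g = ∑ i, B.q i ≫ g ≫ F.map (G.map (B.q i)) := by
  simp [Pr]

lemma Pr_Wt (g : P ⟶ F.obj (G.obj P)) : Pr F G B (p.Wt G c g) = p.Wt G c g := by
  rw [Pr_apply, Wt_apply]
  simp_rw [Preadditive.sum_comp, Preadditive.comp_sum]
  rw [Finset.sum_comm]
  refine Finset.sum_congr rfl fun e _ => ?_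
  have h1 : ∀ i, B.q i ≫ (p.D e (G.obj P) g ≫ G.map (p.m e) ≫ c.hom.app P) ≫
      F.map (G.map (B.q i)) = if i = p.t e then
        p.D e (G.obj P) g ≫ G.map (p.m e) ≫ c.hom.app P else 0 := by
    intro i
    have h2 := c.hom.naturality (B.q i)
    simp only [Functor.comp_map] at h2
    rw [Category.assoc, Category.assoc, ← h2, ← Category.assoc (G.map (p.m e)), ← G.map_comp,
      ← Category.assoc (B.q i), p.q_D']
    split_ifs with hi
    · rw [hi, p.m_q]
    · rw [Limits.zero_comp]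
  simp_rw [h1]
  rw [Finset.sum_ite_eq' Finset.univ (p.t e), if_pos (Finset.mem_univ _)]

/-- The left inverse of the dual transfer operator. -/
noncomputable def Vop (g : P ⟶ F.obj (G.obj P)) : P ⟶ F.obj (G.obj P) :=
  ∑ e, p.m e ≫ F.map g ≫ F.map (c.inv.app P) ≫ F.map (G.map (p.m' e))

lemma Vop_Wt (g : P ⟶ F.obj (G.obj P)) : p.Vop G c (p.Wt G c g) = Pr F G B g := by
  unfold Vop
  have h1 : ∀ e', p.m e' ≫ F.map (p.Wt G c g) ≫ F.map (c.inv.app P) ≫ F.map (G.map (p.m' e')) =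
      p.m e' ≫ F.map (p.D e' (G.obj P) g) ≫ F.map (G.map (B.q (p.s e'))) := by
    intro e'
    rw [← F.map_comp, ← F.map_comp, Wt_apply, Preadditive.sum_comp, F.map_sum,
      Preadditive.comp_sum]
    have h2 : ∀ e, p.m e' ≫ F.map ((p.D e (G.obj P) g ≫ G.map (p.m e) ≫ c.hom.app P) ≫
        c.inv.app P ≫ G.map (p.m' e')) = if e = e' then
          p.m e' ≫ F.map (p.D e (G.obj P) g) ≫ F.map (G.map (B.q (p.s e))) else 0 := by
      intro e
      have h3 : (p.D e (G.obj P) g ≫ G.map (p.m e) ≫ c.hom.app P) ≫ c.inv.app P ≫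
          G.map (p.m' e') = p.D e (G.obj P) g ≫ G.map (p.m e ≫ p.m' e') := by
        rw [Category.assoc, Category.assoc, Iso.hom_inv_id_app_assoc, G.map_comp]
      rw [h3, p.orth]
      split_ifs with h
      · rw [F.map_comp]
      · simp
    simp_rw [h2]
    rw [Finset.sum_ite_eq' Finset.univ e', if_pos (Finset.mem_univ _)]
  simp_rw [h1]
  rw [Pr_apply]
  have h4 : ∀ e, p.m e ≫ F.map (p.D e (G.obj P) g) ≫ F.map (G.map (B.q (p.s e))) =
      ∑ i, B.q i ≫ (p.m e ≫ F.map (p.D e (G.obj P) g)) ≫ F.map (G.map (B.q i)) := by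
    intro e
    rw [Finset.sum_eq_single (p.s e)]
    · rw [← Category.assoc (B.q (p.s e)), ← Category.assoc (B.q (p.s e)), p.q_m, Category.assoc]
    · intro i _ hi
      have h5 : B.q i ≫ p.m e = 0 := by
        rw [← p.q_m e, ← Category.assoc, B.q_mul, if_neg hi, Limits.zero_comp]
      rw [← Category.assoc, ← Category.assoc (B.q i), h5]
      simp
    · intro h; exact absurd (Finset.mem_univ _) h
  simp_rw [h4]
  rw [Finset.sum_comm]
  refine Finset.sum_congr rfl fun i _ => ?_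
  rw [← Preadditive.comp_sum, ← Preadditive.sum_comp]
  congr 2
  exact (p.D_expand (G.obj P) g).symm

/-- The diagonal subspace. -/
noncomputable def Qs (F : C ⥤ C) [F.Additive] [F.Linear ℂ] (G : C ⥤ C) [G.Additive] [G.Linear ℂ]
    (B : BaseData P r) : Submodule ℂ (P ⟶ F.obj (G.obj P)) :=
  LinearMap.eqLocus (Pr F G B) LinearMap.id

lemma mem_Qs (g : P ⟶ F.obj (G.obj P)) : g ∈ Qs F G B ↔ Pr F G B g = g := Iff.rfl

lemma Wt_mem (g : P ⟶ F.obj (G.obj P)) : p.Wt G c g ∈ Qs F G B := p.Pr_Wt G c g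

/-- The dual transfer operator on the diagonal subspace. -/
noncomputable def WQ : Module.End ℂ (Qs F G B) :=
  (p.Wt G c).restrict fun g _ => p.Wt_mem G c g

lemma WQ_injective : Function.Injective (p.WQ G c) := by
  intro g g' h
  have h1 : p.Wt G c g = p.Wt G c g' := congrArg Subtype.val h
  have h2 : p.Vop G c (p.Wt G c g) = p.Vop G c (p.Wt G c g') := by rw [h1]
  rw [Vop_Wt, Vop_Wt, (mem_Qs G _).mp g.2, (mem_Qs G _).mp g'.2] at h2
  exact Subtype.ext h2

lemma trace_WQ [∀ X Y : C, FiniteDimensional ℂ (X ⟶ Y)] (n : ℕ) :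
    LinearMap.trace ℂ _ ((p.WQ G c) ^ (n + 1)) = ∑ x, p.T G c n (rot x) x := by
  rw [← trace_Wt]
  unfold WQ
  rw [Module.End.pow_restrict]
  exact LinearMap.trace_restrict_eq_of_forall_mem _ _ (fun g => by
    rw [pow_succ']
    exact p.Wt_mem G c _)

lemma finrank_Qs [∀ X Y : C, FiniteDimensional ℂ (X ⟶ Y)] (X : r → C) (π : ∀ i, P ⟶ X i)
    (ι : ∀ i, X i ⟶ P) (h1 : ∀ i, π i ≫ ι i = B.q i) (h2 : ∀ i, ι i ≫ π i = 𝟙 (X i)) :
    Module.finrank ℂ (Qs F G B) = ∑ i, Module.finrank ℂ (X i ⟶ F.obj (G.obj (X i))) := by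
  have h3 : ∀ i j, i ≠ j → ι i ≫ π j = 0 := by
    intro i j hij
    have : ι i ≫ π j = ι i ≫ (B.q i ≫ B.q j) ≫ π j := by
      rw [← h1, ← h1]
      simp only [Category.assoc]
      rw [h2, Category.comp_id, ← Category.assoc, h2, Category.id_comp]
    rw [this, B.q_mul, if_neg hij]; simp
  have h4 : ∀ i j, B.q i ≫ π j = if i = j then π j else 0 := by
    intro i j
    rw [← h1, Category.assoc]
    split_ifs with h
    · subst h; rw [h2, Category.comp_id]
    · rw [h3 i j h, Limits.comp_zero]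
  have h5 : ∀ i j, ι j ≫ B.q i = if i = j then ι j else 0 := by
    intro i j
    rw [← h1, ← Category.assoc]
    split_ifs with h
    · subst h; rw [h2, Category.id_comp]
    · rw [h3 j i (Ne.symm h), Limits.zero_comp]
  let e : Qs F G B ≃ₗ[ℂ] (∀ i, (X i ⟶ F.obj (G.obj (X i)))) :=
    { toFun := fun g i => ι i ≫ g.1 ≫ F.map (G.map (π i))
      map_add' := by intro g g'; ext i; simp
      map_smul' := by intro a g; ext i; simp
      invFun := fun f => ⟨∑ i, π i ≫ f i ≫ F.map (G.map (ι i)), by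
        rw [mem_Qs, Pr_apply]
        have h6 : ∀ i, B.q i ≫ (∑ j, π j ≫ f j ≫ F.map (G.map (ι j))) ≫ F.map (G.map (B.q i)) =
            π i ≫ f i ≫ F.map (G.map (ι i)) := by
          intro i
          rw [Preadditive.sum_comp, Preadditive.comp_sum, Finset.sum_eq_single i]
          · rw [Category.assoc, Category.assoc, ← F.map_comp, ← G.map_comp, h5, if_pos rfl,
              ← Category.assoc, h4, if_pos rfl]
          · intro j _ hj
            rw [Category.assoc, Category.assoc, ← F.map_comp, ← G.map_comp, h5,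
              if_neg (Ne.symm hj)]
            simp
          · intro h; exact absurd (Finset.mem_univ _) h
        exact Finset.sum_congr rfl fun i _ => h6 i⟩
      left_inv := by
        intro g
        apply Subtype.ext
        have h7 := (mem_Qs G g.1).mp g.2
        rw [Pr_apply] at h7
        conv_rhs => rw [← h7]
        refine Finset.sum_congr rfl fun i _ => ?_
        rw [← h1]
        simp only [Category.assoc, G.map_comp, F.map_comp]
      right_inv := by
        intro f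
        ext i
        simp only
        rw [Preadditive.sum_comp, Preadditive.comp_sum, Finset.sum_eq_single i]
        · simp only [Category.assoc]
          rw [← F.map_comp, ← G.map_comp, h2, G.map_id, F.map_id, Category.comp_id,
            ← Category.assoc, h2, Category.id_comp]
        · intro j _ hj
          rw [Category.assoc, ← Category.assoc (ι i), h3 i j (Ne.symm hj), Limits.zero_comp]
        · intro h; exact absurd (Finset.mem_univ _) h }
  rw [e.finrank_eq, Module.finrank_pi_fintype]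

end transfer

end PathData

end cat

end Pool.Agent.Helper781.Fusion
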