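import Mathlib

set_option autoImplicit false

open CategoryTheory CategoryTheory.Limits

namespace Pool.Agent.Helper781.Fusion

/-! ### Noncommutative products along `Fin n` -/

lemma prod_sum_expand {R E : Type*} [Semiring R] [Fintype E] (n : ℕ) (f : Fin n → E → R) :
    (List.ofFn fun a => ∑ e, f a e).prod = ∑ x : Fin n → E, (List.ofFn fun a => f a (x a)).prod := by
  induction n with
  | zero => simp
  | succ n ih =>
    rw [List.ofFn_succ, List.prod_cons, ih, Finset.sum_mul_sum,
      ← (Fin.consEquiv fun _ : Fin (n + 1) => E).sum_comp, Fintype.sum_prod_type]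
    refine Finset.sum_congr rfl fun e _ => Finset.sum_congr rfl fun x _ => ?_
    rw [List.ofFn_succ, List.prod_cons]
    simp [Fin.consEquiv]

lemma pow_sum_expand {R E : Type*} [Semiring R] [Fintype E] (n : ℕ) (f : E → R) :
    (∑ e, f e) ^ n = ∑ x : Fin n → E, (List.ofFn fun a => f (x a)).prod := by
  rw [← prod_sum_expand n (fun _ => f)]
  simp

/-- Rotation of a word. -/
def rot {E : Type*} {n : ℕ} (x : Fin (n + 1) → E) : Fin (n + 1) → E :=
  Fin.cons (x (Fin.last n)) fun i => x i.castSucc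

section linear

variable {N M : Type*} [AddCommGroup N] [Module ℂ N] [AddCommGroup M] [Module ℂ M]

lemma chain_shift {E : Type*} (A : E → N →ₗ[ℂ] M) (D : E → M →ₗ[ℂ] N) (n : ℕ)
    (x : Fin (n + 1) → E) :
    (List.ofFn fun a : Fin (n + 1) => (A (x a) ∘ₗ D (x a) : Module.End ℂ M)).prod =
      A (x 0) ∘ₗ ((List.ofFn fun a : Fin n =>
        (D (x a.castSucc) ∘ₗ A (x a.succ) : Module.End ℂ N)).prod : Module.End ℂ N) ∘ₗ
        D (x (Fin.last n)) := by
  induction n with
  | zero =>
    simp only [Nat.reduceAdd, List.ofFn_zero, List.prod_nil, List.ofFn_succ, List.prod_cons]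
    ext v
    simp
  | succ n ih =>
    rw [List.ofFn_succ, List.prod_cons]
    have h := ih (fun i => x i.succ)
    rw [h]
    rw [List.ofFn_succ (n := n), List.prod_cons]
    ext v
    simp only [Module.End.mul_apply, LinearMap.comp_apply]
    rfl

lemma trace_chain [FiniteDimensional ℂ N] [FiniteDimensional ℂ M] {E : Type*}
    (A : E → N →ₗ[ℂ] M) (D : E → M →ₗ[ℂ] N) (n : ℕ) (x : Fin (n + 1) → E) :
    LinearMap.trace ℂ M
      (List.ofFn fun a : Fin (n + 1) => (A (x a) ∘ₗ D (x a) : Module.End ℂ M)).prod =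
    LinearMap.trace ℂ N
      (List.ofFn fun a : Fin (n + 1) => (D (rot x a) ∘ₗ A (x a) : Module.End ℂ N)).prod := by
  rw [chain_shift, LinearMap.trace_comp_comm', List.ofFn_succ, List.prod_cons]
  have h1 : ∀ a : Fin n, rot x a.succ = x a.castSucc := fun a => by simp [rot]
  have h0 : rot x 0 = x (Fin.last n) := by simp [rot]
  simp only [h1, h0]
  rw [LinearMap.comp_assoc, ← Module.End.mul_eq_comp, LinearMap.trace_mul_comm,
    Module.End.mul_eq_comp]

/-- Trace of a power as a sum over words. -/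
lemma trace_pow_expand [FiniteDimensional ℂ N] [FiniteDimensional ℂ M] {E : Type*} [Fintype E]
    (A : E → N →ₗ[ℂ] M) (D : E → M →ₗ[ℂ] N) (n : ℕ) :
    LinearMap.trace ℂ M ((∑ e, (A e ∘ₗ D e : Module.End ℂ M)) ^ (n + 1)) =
    ∑ x : Fin (n + 1) → E, LinearMap.trace ℂ N
      (List.ofFn fun a : Fin (n + 1) => (D (rot x a) ∘ₗ A (x a) : Module.End ℂ N)).prod := by
  rw [pow_sum_expand, map_sum]
  exact Finset.sum_congr rfl fun x _ => trace_chain A D n x

/-- Cyclic invariance. -/
lemma trace_rot [FiniteDimensional ℂ N] (n : ℕ) (f : Fin (n + 1) → Module.End ℂ N) :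
    LinearMap.trace ℂ N (List.ofFn (rot f)).prod = LinearMap.trace ℂ N (List.ofFn f).prod := by
  have h1 : List.ofFn (rot f) = f (Fin.last n) :: List.ofFn (fun i : Fin n => f i.castSucc) := by
    rw [List.ofFn_succ]
    simp [rot]
  rw [h1, List.prod_cons, LinearMap.trace_mul_comm, List.ofFn_succ' f, List.concat_eq_append,
    List.prod_append, List.prod_singleton]

/-- Intertwining along a word. -/
lemma prod_intertwine {N' : Type*} [AddCommGroup N'] [Module ℂ N'] (n : ℕ)
    (f : Fin n → Module.End ℂ N) (g : Fin n → Module.End ℂ N') (κ : N →ₗ[ℂ] N')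
    (h : ∀ a, κ ∘ₗ f a = g a ∘ₗ κ) : κ ∘ₗ (List.ofFn f).prod = (List.ofFn g).prod ∘ₗ κ := by
  induction n with
  | zero => ext v; simp
  | succ n ih =>
    rw [List.ofFn_succ, List.ofFn_succ, List.prod_cons, List.prod_cons, Module.End.mul_eq_comp,
      Module.End.mul_eq_comp, ← LinearMap.comp_assoc, h 0, LinearMap.comp_assoc,
      ih _ _ (fun a => h a.succ), LinearMap.comp_assoc]

lemma prod_absorb (n : ℕ) (f : Fin (n + 1) → Module.End ℂ N) (p : Module.End ℂ N)
    (h : ∀ a, f a * p = f a) : (List.ofFn f).prod * p = (List.ofFn f).prod := by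
  rw [List.ofFn_succ' f, List.concat_eq_append, List.prod_append, List.prod_singleton, mul_assoc,
    h]

/-- Traces along a word agree when `κ σ = id` and the operators absorb `σ κ`. -/
lemma trace_word_eq [FiniteDimensional ℂ N] {N' : Type*} [AddCommGroup N'] [Module ℂ N']
    [FiniteDimensional ℂ N'] (n : ℕ) (f : Fin (n + 1) → Module.End ℂ N)
    (g : Fin (n + 1) → Module.End ℂ N') (κ : N →ₗ[ℂ] N') (σ : N' →ₗ[ℂ] N)
    (hκσ : κ ∘ₗ σ = LinearMap.id) (h : ∀ a, κ ∘ₗ f a = g a ∘ₗ κ)
    (habs : ∀ a, f a ∘ₗ (σ ∘ₗ κ) = f a) :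
    LinearMap.trace ℂ N (List.ofFn f).prod = LinearMap.trace ℂ N' (List.ofFn g).prod := by
  rw [← prod_absorb n f (σ ∘ₗ κ) habs, Module.End.mul_eq_comp, ← LinearMap.comp_assoc,
    LinearMap.trace_comp_comm', ← LinearMap.comp_assoc, prod_intertwine _ f g κ h,
    LinearMap.comp_assoc, hκσ, LinearMap.comp_id]

/-- Product of tensor products of operators. -/
lemma prod_map {N' : Type*} [AddCommGroup N'] [Module ℂ N'] (n : ℕ)
    (f : Fin n → Module.End ℂ N) (g : Fin n → Module.End ℂ N') :
    (List.ofFn fun a => (TensorProduct.map (f a) (g a) :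
      Module.End ℂ (TensorProduct ℂ N N'))).prod =
      TensorProduct.map (List.ofFn f).prod (List.ofFn g).prod := by
  induction n with
  | zero => simp [Module.End.one_eq_id]
  | succ n ih =>
    rw [List.ofFn_succ, List.prod_cons, ih, List.ofFn_succ (f := f), List.ofFn_succ (f := g),
      List.prod_cons, List.prod_cons, Module.End.mul_eq_comp, Module.End.mul_eq_comp,
      Module.End.mul_eq_comp, TensorProduct.map_comp]

end linear

end Pool.Agent.Helper781.Fusion
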